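import Mathlib

/-! Module ZB, definitions. An order in a division algebra over the rationals in coordinates:
the real algebra is `E N = Fin N → ℝ`, the order is the standard lattice `Zl N`. -/

namespace Pool.Agent.MP_bb37eb_nt.ZB

open Set Filter MeasureTheory

/-- coordinate space, with the sup norm and Lebesgue measure -/
abbrev E (N : ℕ) : Type := Fin N → ℝ

/-- the standard lattice: vectors with integer coordinates -/
def Zl (N : ℕ) : AddSubgroup (E N) where
  carrier := {x | ∀ i, ∃ k : ℤ, x i = (k : ℝ)}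
  zero_mem' := fun i => ⟨0, by simp⟩
  add_mem' := by
    intro a b ha hb i
    obtain ⟨k, hk⟩ := ha i
    obtain ⟨l, hl⟩ := hb i
    exact ⟨k + l, by simp [hk, hl]⟩
  neg_mem' := by
    intro a ha i
    obtain ⟨k, hk⟩ := ha i
    exact ⟨-k, by simp [hk]⟩

theorem mem_Zl {N : ℕ} {x : E N} : x ∈ Zl N ↔ ∀ i, ∃ k : ℤ, x i = (k : ℝ) := Iff.rfl

/-- integer vectors as real vectors -/
def cv {N : ℕ} (k : Fin N → ℤ) : E N := fun i => (k i : ℝ)

theorem cv_mem {N : ℕ} (k : Fin N → ℤ) : cv k ∈ Zl N := fun i => ⟨k i, rfl⟩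

theorem exists_cv {N : ℕ} {x : E N} (hx : x ∈ Zl N) : ∃ k, cv k = x := by
  choose k hk using hx
  exact ⟨k, funext fun i => (hk i).symm⟩

/-- An order in a division algebra over the rationals, in coordinates: a bilinear associative
multiplication with unit on `E N` for which `Zl N` is a subring and every nonzero integer vector
is invertible up to an integer. -/
structure DivOrder (N : ℕ) where
  pos : 0 < N
  mul : E N →ₗ[ℝ] E N →ₗ[ℝ] E N
  one : E N
  assoc : ∀ x y z, mul (mul x y) z = mul x (mul y z)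
  one_mul : ∀ x, mul one x = x
  mul_one : ∀ x, mul x one = x
  int_mul : ∀ x ∈ Zl N, ∀ y ∈ Zl N, mul x y ∈ Zl N
  int_one : one ∈ Zl N
  inv : ∀ x ∈ Zl N, x ≠ 0 → ∃ y ∈ Zl N, ∃ m : ℕ, 0 < m ∧
    mul x y = (m : ℝ) • one ∧ mul y x = (m : ℝ) • one

namespace DivOrder

variable {N : ℕ} (O : DivOrder N)

/-- right multiplication by `x`, that is `v ↦ v x` -/
def R (x : E N) : E N →ₗ[ℝ] E N := O.mul.flip x

theorem R_apply (x v : E N) : O.R x v = O.mul v x := rfl

/-- `nu x = |det (v ↦ v x)|` -/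
noncomputable def nu (x : E N) : ℝ := |LinearMap.det (O.R x)|

/-- the subgroup `J x` -/
def rmul (J : AddSubgroup (E N)) (x : E N) : AddSubgroup (E N) := J.map (O.R x).toAddMonoidHom

theorem mem_rmul {J : AddSubgroup (E N)} {x y : E N} :
    y ∈ O.rmul J x ↔ ∃ v ∈ J, O.mul v x = y := Iff.rfl

/-- left ideals of finite index -/
structure LI (J : AddSubgroup (E N)) : Prop where
  le : J ≤ Zl N
  left : ∀ a ∈ Zl N, ∀ x ∈ J, O.mul a x ∈ J
  fin : ∃ q : ℕ, 0 < q ∧ ∀ x ∈ Zl N, (q : ℝ) • x ∈ J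

/-- the group of all `u` with `I u = I` -/
def Gam (I : AddSubgroup (E N)) : Set (E N) := {u | O.rmul I u = I}

/-- the lattice of all `x` with `I x ⊆ Zl N` -/
def L (I : AddSubgroup (E N)) : AddSubgroup (E N) where
  carrier := {x | ∀ v ∈ I, O.mul v x ∈ Zl N}
  zero_mem' := by
    intro v _
    rw [map_zero]
    exact (Zl N).zero_mem
  add_mem' := by
    intro a b ha hb v hv
    rw [map_add]
    exact (Zl N).add_mem (ha v hv) (hb v hv)
  neg_mem' := by
    intro a ha v hv
    rw [map_neg]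
    exact (Zl N).neg_mem (ha v hv)

theorem mem_L {I : AddSubgroup (E N)} {x : E N} : x ∈ O.L I ↔ ∀ v ∈ I, O.mul v x ∈ Zl N :=
  Iff.rfl

/-- `J` and `J'` are in the same class: `J' = J x` with `x` invertible -/
def Rel (J J' : AddSubgroup (E N)) : Prop := ∃ x, O.nu x ≠ 0 ∧ O.rmul J x = J'

end DivOrder

/-- index in the standard lattice -/
noncomputable def idx {N : ℕ} (J : AddSubgroup (E N)) : ℕ := J.relIndex (Zl N)

/-- lattice sum with mesh `h` and shift `t` -/
noncomputable def P {N : ℕ} (ψ : E N → ℝ) (h : ℝ) (t : E N) : ℝ :=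
  ∑' k : Fin N → ℤ, ψ (h • (cv k + t))

end Pool.Agent.MP_bb37eb_nt.ZB
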