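import Pool.Agent.Lib.MP_bb37eb_nt.ZB.Core
import Pool.Agent.Lib.MP_bb37eb_nt.ZA.Order1
import Pool.Agent.Lib.MP_bb37eb_nt.ZA.Bridge

/-! A `DivOrder` from a division algebra with an order (from `ZA/Bridge`). -/

namespace Pool.Agent.MP_bb37eb_nt.ZB

open Set Module

theorem exists_divOrder (D : Type*) [DivisionRing D] [Algebra ℚ D] [FiniteDimensional ℚ D]
    (Λ : Subring D) (hΛ : ZA.IsOrd Λ) (N : ℕ) (hN : 0 < N) (b : Basis (Fin N) ℤ Λ) :
    ∃ (O : DivOrder N) (e : Λ ≃+ Zl N), (∀ x y, (e (x * y) : E N) = O.mul (e x : E N) (e y : E N)) ∧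
      (e 1 : E N) = O.one := by
  let f : Λ →+ Zl N := (ZA.phi b).codRestrict (Zl N) (ZA.phi_mem b)
  have hf : Function.Bijective f := by
    constructor
    · intro x y h
      exact ZA.phi_inj b (congrArg Subtype.val h)
    · rintro ⟨v, hv⟩
      obtain ⟨x, hx⟩ := ZA.phi_surj b hv
      exact ⟨x, Subtype.ext hx⟩
  refine ⟨ZA.divOrder hΛ hN b, AddEquiv.ofBijective f hf, fun x y => ?_, rfl⟩
  exact (ZA.divOrder_mul hΛ hN b x y).symm

end Pool.Agent.MP_bb37eb_nt.ZB
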