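import Pool.Agent.Lib.MP_bb37eb_nt.ZB.Core

/-! Left ideals in coordinates.

PROOF. `φ I = {x : E N | ∃ a ∈ I, e a = x}` (the map of `I.toAddSubgroup` under
`(Zl N).subtype.comp e`). It is contained in `Zl N`, stable under left multiplication by integer vectors
(`I` is a left ideal: `r • a = r * a ∈ I`), and if `q = index I ≠ 0` then `q • a ∈ I` for all `a ∈ Λ`
(`AddSubgroup.nsmul_index_mem`), so `q • Zl N ⊆ φ I`. Conversely a `J` with `O.LI J` gives the ideal
`{a | e a ∈ J}`; its index is finite because the quotient is a quotient of `Zl N / q Zl N`, or because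
`Zl N` is finitely generated of finite exponent modulo `J` (the quotient `Λ / I` is a finitely generated
abelian group killed by `q`; or use `exists_map` and `idx_pos` of `IdxA`). The index is preserved:
`idx (φ I) = (φ I).relIndex (Zl N) = index` of `(φ I).addSubgroupOf (Zl N)`, which corresponds to
`I.toAddSubgroup` under the isomorphism `e` (`AddSubgroup.index_map_equiv` or
`AddSubgroup.index_comap_of_surjective`). -/

namespace Pool.Agent.MP_bb37eb_nt.ZB

open Set

variable {N : ℕ} (O : DivOrder N)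

section

variable {A : Type*} [Ring A] (e : A ≃+ Zl N)

/-- the embedding of `A` in the coordinate space -/
private def br2_f : A →+ E N := (Zl N).subtype.comp e.toAddMonoidHom

private theorem br2_f_apply (a : A) : br2_f e a = (e a : E N) := rfl

private theorem br2_f_inj : Function.Injective (br2_f e) := by
  intro a b h
  exact e.injective (Subtype.ext h)

private theorem br2_f_mem (a : A) : br2_f e a ∈ Zl N := (e a).2

private theorem br2_f_surj {x : E N} (hx : x ∈ Zl N) : ∃ a, br2_f e a = x :=
  ⟨e.symm ⟨x, hx⟩, by rw [br2_f_apply, AddEquiv.apply_symm_apply]⟩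

private theorem br2_f_range : (br2_f e).range = Zl N := by
  ext x
  constructor
  · rintro ⟨a, rfl⟩
    exact br2_f_mem e a
  · intro hx
    exact br2_f_surj e hx

/-- the index of the preimage of a left ideal is not zero -/
private theorem br2_index (J : AddSubgroup (E N)) (hJ : O.LI J) :
    (J.comap (br2_f e)).index ≠ 0 := by
  obtain ⟨q, hq, hq1⟩ := hJ.fin
  have hfin : Finite (A ⧸ J.comap (br2_f e)) := by
    let F : (Fin N → Fin q) → A ⧸ J.comap (br2_f e) := fun w =>
      QuotientAddGroup.mk (e.symm ⟨cv fun i => ((w i : ℕ) : ℤ), cv_mem _⟩)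
    apply Finite.of_surjective F
    intro z
    obtain ⟨a, rfl⟩ := QuotientAddGroup.mk_surjective z
    obtain ⟨k, hk⟩ := exists_cv (br2_f_mem e a)
    have hq' : (0 : ℤ) < q := by exact_mod_cast hq
    refine ⟨fun i => ⟨(k i % q).toNat, ?_⟩, ?_⟩
    · have h1 := Int.emod_nonneg (k i) hq'.ne'
      have h2 := Int.emod_lt_of_pos (k i) hq'
      omega
    · simp only [F]
      rw [QuotientAddGroup.eq]
      change br2_f e (-_ + a) ∈ J
      rw [map_add, map_neg, ← hk, br2_f_apply, AddEquiv.apply_symm_apply]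
      have h3 : -(cv fun i => (((k i % q).toNat : ℕ) : ℤ)) + cv k =
          (q : ℝ) • cv (fun i => k i / q) := by
        funext i
        have h1 := Int.emod_nonneg (k i) hq'.ne'
        have h4 : (((k i % q).toNat : ℕ) : ℤ) = k i % q := Int.toNat_of_nonneg h1
        have h5 := Int.emod_add_mul_ediv (k i) q
        simp only [Pi.add_apply, Pi.neg_apply, Pi.smul_apply, cv, smul_eq_mul]
        rw [h4]
        have h6 : ((k i : ℤ) : ℝ) = ((k i % q : ℤ) : ℝ) + (q : ℝ) * ((k i / q : ℤ) : ℝ) := by
          exact_mod_cast h5.symm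
        rw [h6]
        ring
      have h7 := hq1 _ (cv_mem fun i => k i / q)
      rw [← h3] at h7
      exact h7
  exact AddSubgroup.index_ne_zero_of_finite

/-- the ideal of a left ideal in coordinates -/
private def br2_ideal (he : ∀ x y, (e (x * y) : E N) = O.mul (e x : E N) (e y : E N))
    (J : AddSubgroup (E N)) (hJ : O.LI J) : Ideal A where
  carrier := {a | br2_f e a ∈ J}
  add_mem' := by
    intro a b ha hb
    simp only [mem_setOf_eq, map_add] at ha hb ⊢
    exact J.add_mem ha hb
  zero_mem' := by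
    simp only [mem_setOf_eq, map_zero]
    exact J.zero_mem
  smul_mem' := by
    intro r a ha
    simp only [mem_setOf_eq, smul_eq_mul] at ha ⊢
    rw [br2_f_apply, he]
    exact hJ.left _ (br2_f_mem e r) _ ha

private theorem br2_LI (he : ∀ x y, (e (x * y) : E N) = O.mul (e x : E N) (e y : E N))
    (I : Ideal A) (hI : I.toAddSubgroup.index ≠ 0) : O.LI (I.toAddSubgroup.map (br2_f e)) where
  le := by
    rintro _ ⟨a, -, rfl⟩
    exact br2_f_mem e a
  left := by
    rintro a ha _ ⟨b, hb, rfl⟩
    obtain ⟨a', rfl⟩ := br2_f_surj e ha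
    refine ⟨a' * b, I.mul_mem_left a' hb, ?_⟩
    rw [br2_f_apply, he]
    rfl
  fin := by
    refine ⟨I.toAddSubgroup.index, Nat.pos_of_ne_zero hI, ?_⟩
    intro x hx
    obtain ⟨a, rfl⟩ := br2_f_surj e hx
    refine ⟨I.toAddSubgroup.index • a, I.toAddSubgroup.nsmul_index_mem a, ?_⟩
    rw [map_nsmul, Nat.cast_smul_eq_nsmul]

end

theorem ideal_equiv (A : Type*) [Ring A] (e : A ≃+ Zl N)
    (he : ∀ x y, (e (x * y) : E N) = O.mul (e x : E N) (e y : E N)) :
    ∃ φ : {I : Ideal A // I.toAddSubgroup.index ≠ 0} ≃ {J : AddSubgroup (E N) // O.LI J},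
      ∀ I, idx (φ I).1 = I.1.toAddSubgroup.index := by
  refine ⟨⟨fun I => ⟨I.1.toAddSubgroup.map (br2_f e), br2_LI O e he I.1 I.2⟩,
    fun J => ⟨br2_ideal O e he J.1 J.2, br2_index O e J.1 J.2⟩, ?_, ?_⟩, ?_⟩
  · rintro ⟨I, hI⟩
    apply Subtype.ext
    ext a
    change br2_f e a ∈ I.toAddSubgroup.map (br2_f e) ↔ a ∈ I
    constructor
    · rintro ⟨b, hb, hab⟩
      rw [← br2_f_inj e hab]
      exact hb
    · intro ha
      exact ⟨a, ha, rfl⟩
  · rintro ⟨J, hJ⟩
    apply Subtype.ext
    ext x
    constructor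
    · rintro ⟨a, ha, rfl⟩
      exact ha
    · intro hx
      obtain ⟨a, rfl⟩ := br2_f_surj e (hJ.le hx)
      exact ⟨a, hx, rfl⟩
  · rintro ⟨I, hI⟩
    change (I.toAddSubgroup.map (br2_f e)).relIndex (Zl N) = I.toAddSubgroup.index
    rw [← br2_f_range e, AddMonoidHom.range_eq_map,
      AddSubgroup.relIndex_map_map_of_injective _ _ (br2_f_inj e), AddSubgroup.relIndex_top_right]

end Pool.Agent.MP_bb37eb_nt.ZB
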