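import Pool.Agent.Lib.MP_bb37eb_nt.ZB.Core

/-! A smooth bump function.

PROOF. `K` compact, `U` open, `K ⊆ U`. Choose an open `V` with `K ⊆ V`, `closure V` compact and
contained in `U` (`exists_open_between_and_isCompact_closure`). Apply
`exists_contDiff_tsupport_subset`-type lemmas or `exists_smooth_zero_one_of_isClosed` /
`exists_contMDiff_zero_one..` (in `Mathlib.Geometry.Manifold.PartitionOfUnity`, model
`𝓘(ℝ, E N)`, `contMDiff_iff_contDiff`) to the disjoint closed sets `Vᶜ` and `K`: a smooth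
`f : E N → ℝ` with values in `[0,1]`, `f = 0` on `Vᶜ`, `f = 1` on `K`. Its topological support lies in
`closure V`. (Alternative: cover `K` by finitely many balls and add `ContDiffBump` functions.) -/

namespace Pool.Agent.MP_bb37eb_nt.ZB

open Set Filter MeasureTheory

theorem exists_bump {N : ℕ} (K U : Set (E N)) (hK : IsCompact K) (hU : IsOpen U) (h : K ⊆ U) :
    ∃ φ : E N → ℝ, ContDiff ℝ (⊤ : ℕ∞) φ ∧ HasCompactSupport φ ∧ tsupport φ ⊆ U ∧
      (∀ x, 0 ≤ φ x) ∧ ∀ x ∈ K, 0 < φ x := by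
  obtain ⟨V, hV, hKV, hVU, hVc⟩ := exists_open_between_and_isCompact_closure hK hU h
  obtain ⟨f, hf, hfd, hfr⟩ := IsOpen.exists_contDiff_support_eq (n := (⊤ : ℕ∞)) hV
  have h0 : ∀ x, 0 ≤ f x := fun x => (hfr ⟨x, rfl⟩).1
  refine ⟨f, hfd, ?_, ?_, h0, fun x hx => ?_⟩
  · unfold HasCompactSupport tsupport
    rw [hf]
    exact hVc
  · unfold tsupport
    rw [hf]
    exact hVU
  · have hx' : x ∈ Function.support f := by
      rw [hf]
      exact hKV hx
    exact lt_of_le_of_ne (h0 x) (Function.mem_support.1 hx').symm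

end Pool.Agent.MP_bb37eb_nt.ZB
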