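import Pool.Agent.Lib.MP_bb37eb_nt.ZB.Coc

/-! Finitely many classes of left ideals.

PROOFS.
* `rel_refl`, `rel_symm`, `rel_trans`: `rmul_one`, `rmul_cancel`, `rmul_mul`, `exists_inv`, `nu_mul`.
* `exists_small`: let `B` be the constant of `nu_le` and `j = idx J` (positive, `idx_li_pos`). By
  `exists_map`, `J = T (Zl N)` with `det T ≠ 0`, and `|det T| = j` (`idx_map`). `minkowski` with
  `A = T`, `t = j^(1/N)` gives a nonzero integer vector `k` with `‖T k‖ ≤ 2 j^(1/N)`. Put `l = T k`: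
  `l ∈ J`, `l ≠ 0` (`T` is injective), `nu l ≤ B ‖l‖^N ≤ B 2^N j`.
* `small_index`: for `l ∈ J`, `l ≠ 0`, the group `Zl N l = (Zl N).map (O.R l)` is contained in `J`
  (left ideal), and `idx (Zl N l) = nu l` (`idx_map`, `T = O.R l`), and
  `[J : Zl N l] * idx J = idx (Zl N l)` (`AddSubgroup.relIndex_mul_relIndex`). So `r = [J : Zl N l]`
  satisfies `r * idx J = nu l`; and `r • v ∈ Zl N l` for `v ∈ J` (the quotient group has order `r`;
  `AddSubgroup.nsmul_index_mem` for `(Zl N l).addSubgroupOf J`).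
* `finite_classes`: let `M = ⌈B 2^N⌉₊` and `Q = M !`. Let `J` be a left ideal, `l` as in `exists_small`,
  `l'` its inverse, `F = J l'`. As in `Coc` (1), `Zl N ≤ F`. By `small_index`, `r ≤ M`, so `r ∣ Q`
  and `Q • v ∈ Zl N l` for `v ∈ J`, i.e. `Q • F ⊆ Zl N`. So `F` belongs to the finite set of
  `finite_sub Q`. Put `G = Q • F = O.rmul F (Q • 1)`. It is a left ideal of finite index:
  `G ≤ Zl N`, left stable because `J` and hence `F` are, and `Q • Zl N ⊆ G`. And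
  `G x = J` for `x = Q⁻¹ • l`: `G x = F (Q • 1) (Q⁻¹ • l) = F l = J l' l = J`. So `O.Rel G J`. The finite set
  `S` consists of the groups `O.rmul F (Q • 1)`, `F` in the finite set of `finite_sub Q`, which
  are left ideals of finite index.
* `exists_reps`: from `finite_classes`: take a subset `S' ⊆ S` of minimal cardinality such that every
  left ideal of finite index is related to an element of `S'`; then uniqueness holds (if two
  elements of `S'` are related to the same `J` they are related to each other and one can be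
  removed). Or choose representatives with the quotient by the setoid.
-/

namespace Pool.Agent.MP_bb37eb_nt.ZB

open Set Filter MeasureTheory

variable {N : ℕ} (O : DivOrder N)

theorem rel_refl (J : AddSubgroup (E N)) : O.Rel J J :=
  ⟨O.one, by rw [nu_one]; exact one_ne_zero, rmul_one O J⟩

theorem rel_symm (J J' : AddSubgroup (E N)) (h : O.Rel J J') : O.Rel J' J := by
  obtain ⟨x, hx, rfl⟩ := h
  obtain ⟨y, h1, _, h3, _⟩ := exists_inv O x hx
  exact ⟨y, h3, rmul_cancel O J x y h1⟩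

theorem rel_trans (J J' J'' : AddSubgroup (E N)) (h : O.Rel J J') (h' : O.Rel J' J'') :
    O.Rel J J'' := by
  obtain ⟨x, hx, rfl⟩ := h
  obtain ⟨y, hy, rfl⟩ := h'
  refine ⟨O.mul x y, ?_, rmul_mul O J x y⟩
  rw [nu_mul]
  exact mul_ne_zero hx hy

theorem exists_small : ∃ B : ℝ, 1 ≤ B ∧ ∀ J : AddSubgroup (E N), O.LI J →
    ∃ l ∈ J, l ≠ 0 ∧ O.nu l ≤ B * idx J := by
  obtain ⟨B, hB1, hB⟩ := nu_le O
  refine ⟨B * 2 ^ N, ?_, fun J hJ => ?_⟩
  · have : (1 : ℝ) ≤ 2 ^ N := one_le_pow₀ (by norm_num)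
    nlinarith
  obtain ⟨q, hq, hqJ⟩ := hJ.fin
  obtain ⟨T, hT, hTJ⟩ := exists_map J hJ.le q hq hqJ
  have hmem : ∀ x ∈ Zl N, T x ∈ J := by
    intro x hx
    rw [← hTJ]
    exact ⟨x, hx, rfl⟩
  have hdet : (idx J : ℝ) = |LinearMap.det T| := by
    rw [← hTJ]
    exact idx_map T (fun x hx => hJ.le (hmem x hx)) hT
  have hpos : (0 : ℝ) < idx J := by
    rw [hdet]
    exact abs_pos.2 hT
  have hN : (N : ℝ) ≠ 0 := Nat.cast_ne_zero.2 O.pos.ne'
  have ht : ((idx J : ℝ) ^ ((N : ℝ)⁻¹)) ^ N = idx J := by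
    rw [← Real.rpow_natCast, ← Real.rpow_mul hpos.le, inv_mul_cancel₀ hN, Real.rpow_one]
  obtain ⟨k, hk, hk0, hk1⟩ := minkowski O.pos T hT ((idx J : ℝ) ^ ((N : ℝ)⁻¹))
    (Real.rpow_pos_of_pos hpos _) (by rw [ht, hdet])
  refine ⟨T k, hmem k hk, ?_, ?_⟩
  · intro h
    have hu : IsUnit T := (LinearMap.isUnit_iff_isUnit_det T).2 (isUnit_iff_ne_zero.2 hT)
    have hinj : Function.Injective T := ((Module.End.isUnit_iff T).1 hu).1
    exact hk0 (hinj (by rw [h, map_zero]))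
  · refine (hB _).trans ?_
    have h1 : ‖T k‖ ^ N ≤ (2 * (idx J : ℝ) ^ ((N : ℝ)⁻¹)) ^ N :=
      pow_le_pow_left₀ (norm_nonneg _) hk1 N
    rw [mul_pow, ht] at h1
    calc B * ‖T k‖ ^ N ≤ B * (2 ^ N * idx J) := mul_le_mul_of_nonneg_left h1 (by linarith)
      _ = B * 2 ^ N * idx J := by ring

theorem small_index (J : AddSubgroup (E N)) (hJ : O.LI J) (l : E N) (hl : l ∈ J) (h0 : l ≠ 0) :
    ∃ r : ℕ, (r : ℝ) * idx J = O.nu l ∧ 0 < r ∧
      ∀ v ∈ J, ∃ a ∈ Zl N, (r : ℝ) • v = O.mul a l := by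
  have hlZ : l ∈ Zl N := hJ.le hl
  have hn1 := one_le_nu O l hlZ h0
  obtain ⟨P, hP⟩ : ∃ P : AddSubgroup (E N), P = (Zl N).map (O.R l).toAddMonoidHom := ⟨_, rfl⟩
  have hPJ : P ≤ J := by
    rw [hP]
    rintro _ ⟨a, ha, rfl⟩
    exact hJ.left a ha l hl
  have hdet : LinearMap.det (O.R l) ≠ 0 := by
    intro h
    rw [DivOrder.nu, h, abs_zero] at hn1
    linarith
  have hidx : (idx P : ℝ) = O.nu l := by
    rw [hP]
    exact idx_map (O.R l) (fun x hx => O.int_mul x hx l hlZ) hdet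
  have hmul : P.relIndex J * idx J = idx P := AddSubgroup.relIndex_mul_relIndex P J (Zl N) hPJ hJ.le
  refine ⟨P.relIndex J, ?_, ?_, ?_⟩
  · rw [← hidx, ← hmul]
    push_cast
    ring
  · rw [Nat.pos_iff_ne_zero]
    intro h
    rw [h, zero_mul] at hmul
    rw [← hmul, Nat.cast_zero] at hidx
    linarith
  · intro v hv
    have h1 := AddSubgroup.nsmul_index_mem (P.addSubgroupOf J) ⟨v, hv⟩
    rw [AddSubgroup.mem_addSubgroupOf] at h1
    have h2 : (P.relIndex J) • v ∈ P := h1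
    rw [← Nat.cast_smul_eq_nsmul ℝ] at h2
    rw [hP] at h2
    obtain ⟨a, ha, ha2⟩ := h2
    refine ⟨a, ha, ?_⟩
    rw [hP]
    exact ha2.symm

theorem finite_classes : ∃ S : Finset (AddSubgroup (E N)), (∀ I ∈ S, O.LI I) ∧
    ∀ J, O.LI J → ∃ I ∈ S, O.Rel I J := by
  classical
  obtain ⟨B, hB1, hB⟩ := exists_small O
  obtain ⟨M, hM⟩ := exists_nat_ge B
  obtain ⟨Q, hQ⟩ : ∃ Q : ℕ, Q = M.factorial := ⟨_, rfl⟩
  have hQ0 : 0 < Q := by rw [hQ]; exact M.factorial_pos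
  have hQr : (0 : ℝ) < Q := by exact_mod_cast hQ0
  have hfin := finite_sub (N := N) Q hQ0
  refine ⟨(hfin.toFinset.image (fun F => O.rmul F ((Q : ℝ) • O.one))).filter (fun I => O.LI I),
    fun I hI => (Finset.mem_filter.1 hI).2, fun J hJ => ?_⟩
  obtain ⟨l, hl, hl0, hln⟩ := hB J hJ
  obtain ⟨r, hr1, hr0, hr2⟩ := small_index O J hJ l hl hl0
  have hn1 := one_le_nu O l (hJ.le hl) hl0
  obtain ⟨l', h1, h2, _, _⟩ := exists_inv O l (by linarith)
  have hidx : (0 : ℝ) < idx J := by exact_mod_cast idx_li_pos O J hJ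
  have hrM : r ≤ M := by
    have h3 : (r : ℝ) * idx J ≤ B * idx J := by rw [hr1]; exact hln
    have h4 : (r : ℝ) ≤ M := (le_of_mul_le_mul_right h3 hidx).trans hM
    exact_mod_cast h4
  obtain ⟨j, hj⟩ : r ∣ Q := by rw [hQ]; exact Nat.dvd_factorial hr0 hrM
  obtain ⟨F, hF⟩ : ∃ F : AddSubgroup (E N), F = O.rmul J l' := ⟨_, rfl⟩
  have hZF : Zl N ≤ F := by
    intro a ha
    rw [hF]
    refine O.mem_rmul.2 ⟨O.mul a l, hJ.left a ha l hl, ?_⟩
    rw [O.assoc, h1, O.mul_one]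
  have hFZ : ∀ x ∈ F, (Q : ℝ) • x ∈ Zl N := by
    intro x hx
    rw [hF] at hx
    obtain ⟨v, hv, rfl⟩ := O.mem_rmul.1 hx
    obtain ⟨a, ha, h3⟩ := hr2 v hv
    have h4 : (r : ℝ) • O.mul v l' = a := by
      have h5 : O.mul ((r : ℝ) • v) l' = O.mul (O.mul a l) l' := by rw [h3]
      rw [O.assoc, h1, O.mul_one, map_smul, LinearMap.smul_apply] at h5
      exact h5
    rw [hj, Nat.cast_mul, mul_comm, mul_smul, h4, Nat.cast_smul_eq_nsmul]
    exact (Zl N).nsmul_mem ha j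
  have hone : ∀ x : E N, O.mul x ((Q : ℝ) • O.one) = (Q : ℝ) • x := by
    intro x
    rw [map_smul, O.mul_one]
  have hLI : O.LI (O.rmul F ((Q : ℝ) • O.one)) := by
    refine ⟨?_, ?_, Q, hQ0, ?_⟩
    · intro z hz
      obtain ⟨x, hx, rfl⟩ := O.mem_rmul.1 hz
      rw [hone]
      exact hFZ x hx
    · intro a ha z hz
      obtain ⟨x, hx, rfl⟩ := O.mem_rmul.1 hz
      refine O.mem_rmul.2 ⟨O.mul a x, ?_, O.assoc _ _ _⟩
      rw [hF] at hx ⊢
      obtain ⟨v, hv, rfl⟩ := O.mem_rmul.1 hx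
      exact O.mem_rmul.2 ⟨O.mul a v, hJ.left a ha v hv, O.assoc _ _ _⟩
    · intro w hw
      exact O.mem_rmul.2 ⟨w, hZF hw, hone w⟩
  refine ⟨O.rmul F ((Q : ℝ) • O.one), ?_, ?_⟩
  · rw [Finset.mem_filter, Finset.mem_image]
    refine ⟨⟨F, ?_, rfl⟩, hLI⟩
    rw [Set.Finite.mem_toFinset]
    exact ⟨hZF, hFZ⟩
  · refine ⟨(Q : ℝ)⁻¹ • l, ?_, ?_⟩
    · rw [nu_smul]
      refine mul_ne_zero (pow_ne_zero _ (abs_ne_zero.2 (inv_ne_zero hQr.ne'))) ?_
      intro h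
      rw [h] at hn1
      linarith
    · rw [← rmul_mul]
      have h3 : O.mul ((Q : ℝ) • O.one) ((Q : ℝ)⁻¹ • l) = l := by
        rw [map_smul, map_smul, LinearMap.smul_apply, O.one_mul, smul_smul,
          inv_mul_cancel₀ hQr.ne', one_smul]
      rw [h3, hF]
      exact rmul_cancel O J l' l h2

theorem exists_reps : ∃ S : Finset (AddSubgroup (E N)), (∀ I ∈ S, O.LI I) ∧
    ∀ J, O.LI J → ∃! I, I ∈ S ∧ O.Rel I J := by
  classical
  obtain ⟨S, hS1, hS2⟩ := finite_classes O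
  obtain ⟨f, hf⟩ : ∃ f : AddSubgroup (E N) → AddSubgroup (E N),
      f = fun J => Classical.epsilon (fun I => I ∈ S ∧ O.Rel I J) := ⟨_, rfl⟩
  have hspec : ∀ J, O.LI J → f J ∈ S ∧ O.Rel (f J) J := by
    intro J hJ
    obtain ⟨I, hI, hR⟩ := hS2 J hJ
    rw [hf]
    exact Classical.epsilon_spec (p := fun I => I ∈ S ∧ O.Rel I J) ⟨I, hI, hR⟩
  have hcong : ∀ J J', O.Rel J J' → f J = f J' := by
    intro J J' h
    rw [hf]
    have : (fun I => I ∈ S ∧ O.Rel I J) = fun I => I ∈ S ∧ O.Rel I J' := by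
      funext I
      refine propext ⟨fun h1 => ⟨h1.1, rel_trans O _ _ _ h1.2 h⟩,
        fun h1 => ⟨h1.1, rel_trans O _ _ _ h1.2 (rel_symm O _ _ h)⟩⟩
    show Classical.epsilon _ = Classical.epsilon _
    rw [this]
  refine ⟨S.image f, ?_, ?_⟩
  · intro I hI
    obtain ⟨J, hJ, rfl⟩ := Finset.mem_image.1 hI
    exact hS1 _ (hspec J (hS1 J hJ)).1
  · intro J hJ
    obtain ⟨I, hI, hR⟩ := hS2 J hJ
    refine ⟨f I, ⟨Finset.mem_image_of_mem f hI,
      rel_trans O _ _ _ (hspec I (hS1 I hI)).2 hR⟩, ?_⟩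
    rintro K ⟨hK, hKJ⟩
    obtain ⟨I₂, hI₂, rfl⟩ := Finset.mem_image.1 hK
    refine hcong _ _ ?_
    exact rel_trans O _ _ _ (rel_trans O _ _ _ (rel_symm O _ _ (hspec I₂ (hS1 I₂ hI₂)).2) hKJ)
      (rel_symm O _ _ hR)

end Pool.Agent.MP_bb37eb_nt.ZB
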