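import Pool.Agent.Lib.MP_bb37eb_nt.ZB.Core

/-! Subgroups between `Zl N` and `(1/q) Zl N`.

PROOFS. `fr x = (Int.fract (x i))_i` is the fractional part; `x - fr x` is an integer vector.
* `fin_cube`: the set of `r` with `0 ≤ r i < 1` and `q • r ∈ Zl N` is finite: `q • r` is an
  integer vector with coordinates in `[0, q)`.
* `finite_sub`: a subgroup `F` with `Zl N ≤ F` and `q • F ⊆ Zl N` is determined by its intersection
  with this finite set `T`: `x ∈ F ↔ fr x ∈ F`. So `F ↦ F ∩ T` is injective into the (finite) set of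
  subsets of `T` (`Set.Finite.finite_subsets`, `Set.Finite.of_injOn` or `Set.Finite.of_finite_image`).
* `coset_equiv`: the map `(r, k) ↦ r + cv k` is a bijection from
  `{r ∈ F | 0 ≤ r i < 1} × (Fin N → ℤ)` to `F`; inverse `x ↦ (fr x, floor x)`.
-/

namespace Pool.Agent.MP_bb37eb_nt.ZB

open Set Filter MeasureTheory

variable {N : ℕ}

/-- the vector of the fractional parts -/
private noncomputable def finsub_fr (x : E N) : E N := fun i => Int.fract (x i)

private theorem finsub_dec (x : E N) : x = cv (fun i => ⌊x i⌋) + finsub_fr x := by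
  funext i
  exact (Int.floor_add_fract (x i)).symm

private theorem finsub_mem {F : AddSubgroup (E N)} (hF : Zl N ≤ F) (x : E N) :
    x ∈ F ↔ finsub_fr x ∈ F := by
  have h := hF (cv_mem (fun i => ⌊x i⌋))
  constructor
  · intro hx
    have e : finsub_fr x = x - cv (fun i => ⌊x i⌋) := by
      rw [eq_sub_iff_add_eq, add_comm]
      exact (finsub_dec x).symm
    rw [e]
    exact F.sub_mem hx h
  · intro hx
    rw [finsub_dec x]
    exact F.add_mem h hx

theorem fin_cube (q : ℕ) (hq : 0 < q) :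
    {r : E N | (∀ i, 0 ≤ r i ∧ r i < 1) ∧ (q : ℝ) • r ∈ Zl N}.Finite := by
  refine (Set.finite_range (fun (k : Fin N → Fin q) (i : Fin N) => ((k i : ℕ) : ℝ) / q)).subset ?_
  rintro r ⟨h1, h2⟩
  have hq' : (0 : ℝ) < q := by exact_mod_cast hq
  have h3 : ∀ i, ∃ m : Fin q, (q : ℝ) * r i = ((m : ℕ) : ℝ) := by
    intro i
    obtain ⟨k, hk⟩ := h2 i
    have hk' : (q : ℝ) * r i = (k : ℝ) := hk
    have h0 : (0 : ℤ) ≤ k := by
      have : (0 : ℝ) ≤ (k : ℝ) := by
        rw [← hk']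
        exact mul_nonneg hq'.le (h1 i).1
      exact_mod_cast this
    have h4 : k < (q : ℤ) := by
      have : (k : ℝ) < (q : ℝ) := by
        rw [← hk']
        have := mul_lt_mul_of_pos_left (h1 i).2 hq'
        rwa [mul_one] at this
      exact_mod_cast this
    refine ⟨⟨k.toNat, by omega⟩, ?_⟩
    rw [hk']
    have e : ((k.toNat : ℤ) : ℝ) = (k : ℝ) := by rw [Int.toNat_of_nonneg h0]
    rw [← e]
    rfl
  choose m hm using h3
  refine ⟨m, ?_⟩
  funext i
  change ((m i : ℕ) : ℝ) / q = r i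
  rw [← hm i, mul_div_cancel_left₀ _ hq'.ne']

theorem finite_sub (q : ℕ) (hq : 0 < q) :
    {F : AddSubgroup (E N) | Zl N ≤ F ∧ ∀ x ∈ F, (q : ℝ) • x ∈ Zl N}.Finite := by
  set T : Set (E N) := {r : E N | (∀ i, 0 ≤ r i ∧ r i < 1) ∧ (q : ℝ) • r ∈ Zl N} with hT
  have hTf : T.Finite := fin_cube q hq
  refine Set.Finite.of_finite_image (f := fun F : AddSubgroup (E N) => (F : Set (E N)) ∩ T)
    (hTf.finite_subsets.subset ?_) ?_
  · rintro _ ⟨F, _, rfl⟩
    exact Set.inter_subset_right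
  · have key : ∀ F F' : AddSubgroup (E N), Zl N ≤ F → (∀ x ∈ F, (q : ℝ) • x ∈ Zl N) →
        Zl N ≤ F' → (F : Set (E N)) ∩ T = (F' : Set (E N)) ∩ T → F ≤ F' := by
      intro F F' h1 h2 h3 h4 x hx
      rw [finsub_mem h3]
      have h5 : finsub_fr x ∈ F := (finsub_mem h1 x).1 hx
      have h6 : finsub_fr x ∈ (F : Set (E N)) ∩ T :=
        ⟨h5, fun i => ⟨Int.fract_nonneg _, Int.fract_lt_one _⟩, h2 _ h5⟩
      rw [h4] at h6
      exact h6.1
    intro F hF F' hF' h
    exact le_antisymm (key F F' hF.1 hF.2 hF'.1 h) (key F' F hF'.1 hF'.2 hF.1 h.symm)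

theorem coset_equiv (F : AddSubgroup (E N)) (hF : Zl N ≤ F) :
    ∃ e : ({r : E N // r ∈ F ∧ ∀ i, 0 ≤ r i ∧ r i < 1} × (Fin N → ℤ)) ≃ F,
      ∀ p, (e p : E N) = cv p.2 + p.1 := by
  refine ⟨{ toFun := fun p => ⟨cv p.2 + p.1, F.add_mem (hF (cv_mem _)) p.1.2.1⟩
            invFun := fun x => (⟨finsub_fr (x : E N), (finsub_mem hF _).1 x.2,
              fun i => ⟨Int.fract_nonneg _, Int.fract_lt_one _⟩⟩, fun i => ⌊(x : E N) i⌋)
            left_inv := ?_
            right_inv := ?_ }, fun p => rfl⟩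
  · rintro ⟨⟨r, h1, h2⟩, k⟩
    have e1 : finsub_fr (cv k + r) = r := by
      funext i
      change Int.fract ((k i : ℝ) + r i) = r i
      rw [Int.fract_intCast_add, Int.fract_eq_self]
      exact h2 i
    have e2 : (fun i => ⌊(cv k + r) i⌋) = k := by
      funext i
      change ⌊(k i : ℝ) + r i⌋ = k i
      rw [Int.floor_intCast_add, Int.floor_eq_zero_iff.2 (h2 i), add_zero]
    refine Prod.ext (Subtype.ext e1) e2
  · intro x
    apply Subtype.ext
    exact (finsub_dec (x : E N)).symm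

end Pool.Agent.MP_bb37eb_nt.ZB
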