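import Pool.Agent.Lib.MP_bb37eb_nt.ZB.NuA

/-! Invertible elements, bounds.

PROOFS.
* `exists_inv`: `det (O.R x) ≠ 0`, so `O.R x` is surjective (`LinearMap.det` unit, or
  `LinearEquiv.ofIsUnitDet`): there is `y` with `y x = 1`. Then `nu y * nu x = nu 1 = 1`, so
  `nu y ≠ 0` and there is `z` with `z y = 1`; `z = z (y x) = (z y) x = x`, so `x y = 1`.
* `nu_ne_of_inv`: from `mul x y = m • one`: `nu x * nu y = |m|^N * 1 ≠ 0`.
* `R_injective`: if `nu x ≠ 0` and `v x = w x` multiply by the inverse of `x` from the right.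
* `mul_norm_le`: `O.mul` is a bilinear map on finite dimensional spaces: continuous, so bounded:
  e.g. `‖mul x y‖ ≤ ∑_i ∑_j |x_i| |y_j| ‖mul e_i e_j‖` (expand `x = ∑ x_i e_i` with
  `pi_eq_sum_univ'` or `Pi.basisFun`), `|x_i| ≤ ‖x‖` (`norm_le_pi_norm`).
* `mul_cont`: continuity of `fun p => O.mul p.1 p.2` (same expansion, or
  `LinearMap.continuous₂`-like argument: both linear maps are continuous in finite dimension; e.g.
  `(LinearMap.mkContinuous₂ O.mul B _).continuous₂` with the bound `mul_norm_le`).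
* `compact_lower`: `K` compact with `nu ≠ 0` on `K`. The continuous function
  `(k, v) ↦ ‖mul v k‖` is positive on the compact set `K × unit sphere` by `R_injective`, so it has a
  positive minimum `c` there (if `K` is empty or the sphere is empty take `c = 1`; `N > 0` so the
  sphere is nonempty, but this is not needed). For `v ≠ 0` scale.
* `finite_bdd`: the set of integer vectors with `‖x‖ ≤ r` is finite: it is the image under `cv` of
  `Set.pi univ (Icc (-⌈r⌉) ⌈r⌉)`, or use that it is contained in a finite product.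
* `finite_meet`: if `u k ∈ K'` with `k ∈ K` then `c ‖u‖ ≤ ‖mul u k‖ ≤ R'`, so `‖u‖ ≤ R'/c`, and
  `q • u` is an integer vector of norm at most `q R'/c`; finitely many by `finite_bdd`, and
  `u ↦ q • u` is injective.
-/

namespace Pool.Agent.MP_bb37eb_nt.ZB

open Set Filter MeasureTheory

variable {N : ℕ} (O : DivOrder N)

theorem nub_bij (x : E N) (hx : O.nu x ≠ 0) : Function.Bijective (O.R x) := by
  have h1 : LinearMap.det (O.R x) ≠ 0 := by
    intro h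
    apply hx
    rw [DivOrder.nu, h, abs_zero]
  have h2 : IsUnit (O.R x) :=
    (LinearMap.isUnit_iff_isUnit_det (O.R x)).2 (isUnit_iff_ne_zero.2 h1)
  exact (Module.End.isUnit_iff (O.R x)).1 h2

theorem exists_inv (x : E N) (hx : O.nu x ≠ 0) :
    ∃ y, O.mul x y = O.one ∧ O.mul y x = O.one ∧ O.nu y ≠ 0 ∧ O.nu y = (O.nu x)⁻¹ := by
  obtain ⟨y, hy⟩ := (nub_bij O x hx).2 O.one
  rw [DivOrder.R_apply] at hy
  have h1 : O.nu y * O.nu x = 1 := by
    rw [← nu_mul, hy, nu_one]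
  have h2 : O.nu y ≠ 0 := left_ne_zero_of_mul_eq_one h1
  obtain ⟨z, hz⟩ := (nub_bij O y h2).2 O.one
  rw [DivOrder.R_apply] at hz
  have h3 : z = x := by
    have e : O.mul (O.mul z y) x = O.mul z (O.mul y x) := O.assoc z y x
    rw [hz, hy, O.one_mul, O.mul_one] at e
    exact e.symm
  rw [h3] at hz
  exact ⟨y, hz, hy, h2, eq_inv_of_mul_eq_one_left h1⟩

theorem nu_ne_of_inv (x y : E N) (m : ℝ) (hm : m ≠ 0) (h : O.mul x y = m • O.one) :
    O.nu x ≠ 0 := by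
  intro h0
  have h1 : O.nu x * O.nu y = |m| ^ N := by
    rw [← nu_mul, h, nu_smul, nu_one, _root_.mul_one]
  rw [h0, zero_mul] at h1
  exact absurd h1.symm (pow_ne_zero N (abs_ne_zero.2 hm))

/-- nonzero rational vectors are invertible -/
theorem nu_ne_of_rat (x : E N) (hx : x ≠ 0) (q : ℕ) (hq : 0 < q) (h : (q : ℝ) • x ∈ Zl N) :
    O.nu x ≠ 0 := by
  have hq' : (q : ℝ) ≠ 0 := Nat.cast_ne_zero.2 hq.ne'
  obtain ⟨y, _, m, hm, h1, _⟩ := O.inv _ h (smul_ne_zero hq' hx)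
  apply nu_ne_of_inv O x ((q : ℝ) • y) (m : ℝ) (Nat.cast_ne_zero.2 hm.ne')
  rw [← h1, map_smul, map_smul, LinearMap.smul_apply]

theorem R_injective (x : E N) (hx : O.nu x ≠ 0) (v w : E N) (h : O.mul v x = O.mul w x) :
    v = w := (nub_bij O x hx).1 h

theorem mul_norm_le : ∃ B : ℝ, 1 ≤ B ∧ ∀ x y : E N, ‖O.mul x y‖ ≤ B * ‖x‖ * ‖y‖ := by
  let M0 : E N →ₗ[ℝ] (E N →L[ℝ] E N) :=
    (LinearMap.toContinuousLinearMap : (E N →ₗ[ℝ] E N) ≃ₗ[ℝ] (E N →L[ℝ] E N)).toLinearMap.comp O.mul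
  let M : E N →L[ℝ] E N →L[ℝ] E N := LinearMap.toContinuousLinearMap M0
  refine ⟨max 1 ‖M‖, le_max_left _ _, fun x y => ?_⟩
  have h1 : O.mul x y = M x y := rfl
  rw [h1]
  refine (ContinuousLinearMap.le_opNorm₂ M x y).trans ?_
  have h2 : ‖M‖ ≤ max 1 ‖M‖ := le_max_right _ _
  have h3 : ‖M‖ * ‖x‖ ≤ max 1 ‖M‖ * ‖x‖ := mul_le_mul_of_nonneg_right h2 (norm_nonneg x)
  exact mul_le_mul_of_nonneg_right h3 (norm_nonneg y)

theorem mul_cont : Continuous (fun p : E N × E N => O.mul p.1 p.2) := by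
  obtain ⟨B, _, hB⟩ := mul_norm_le O
  have h1 := (LinearMap.mkContinuous₂ O.mul B hB).continuous₂
  exact h1

theorem compact_lower (K : Set (E N)) (hK : IsCompact K) (h : ∀ k ∈ K, O.nu k ≠ 0) :
    ∃ c : ℝ, 0 < c ∧ ∀ k ∈ K, ∀ v : E N, c * ‖v‖ ≤ ‖O.mul v k‖ := by
  have hS : IsCompact (Metric.sphere (0 : E N) 1) := isCompact_sphere _ _
  have hc : Continuous (fun p : E N × E N => ‖O.mul p.2 p.1‖) :=
    ((mul_cont O).comp continuous_swap).norm
  rcases (K ×ˢ Metric.sphere (0 : E N) 1).eq_empty_or_nonempty with he | hne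
  · refine ⟨1, one_pos, fun k hk v => ?_⟩
    by_cases hv : v = 0
    · rw [hv, norm_zero, mul_zero]
      exact norm_nonneg _
    · exfalso
      have hm : (k, ‖v‖⁻¹ • v) ∈ K ×ˢ Metric.sphere (0 : E N) 1 := by
        refine ⟨hk, ?_⟩
        rw [mem_sphere_zero_iff_norm, norm_smul, norm_inv, norm_norm]
        exact inv_mul_cancel₀ (norm_ne_zero_iff.2 hv)
      rw [he] at hm
      exact hm
  · obtain ⟨p, hp, hmin⟩ := (hK.prod hS).exists_isMinOn hne hc.continuousOn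
    have hpos : 0 < ‖O.mul p.2 p.1‖ := by
      rw [norm_pos_iff]
      intro h0
      have h1 : p.2 = 0 := R_injective O p.1 (h _ hp.1) p.2 0 (by
        rw [h0, map_zero, LinearMap.zero_apply])
      have h2 : ‖p.2‖ = 1 := mem_sphere_zero_iff_norm.1 hp.2
      rw [h1, norm_zero] at h2
      exact zero_ne_one h2
    refine ⟨‖O.mul p.2 p.1‖, hpos, fun k hk v => ?_⟩
    by_cases hv : v = 0
    · rw [hv, norm_zero, mul_zero]
      exact norm_nonneg _
    · have hv' : ‖v‖ ≠ 0 := norm_ne_zero_iff.2 hv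
      have hm : (k, ‖v‖⁻¹ • v) ∈ K ×ˢ Metric.sphere (0 : E N) 1 := by
        refine ⟨hk, ?_⟩
        rw [mem_sphere_zero_iff_norm, norm_smul, norm_inv, norm_norm]
        exact inv_mul_cancel₀ hv'
      have h3 : ‖O.mul p.2 p.1‖ ≤ ‖O.mul (‖v‖⁻¹ • v) k‖ := hmin hm
      rw [map_smul, LinearMap.smul_apply, norm_smul, norm_inv, norm_norm] at h3
      have h4 := mul_le_mul_of_nonneg_right h3 (norm_nonneg v)
      have h5 : ‖v‖⁻¹ * ‖O.mul v k‖ * ‖v‖ = ‖O.mul v k‖ := by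
        field_simp
      rwa [h5] at h4

theorem finite_bdd (N : ℕ) (r : ℝ) : {x : E N | x ∈ Zl N ∧ ‖x‖ ≤ r}.Finite := by
  have hf : (Set.pi univ (fun _ : Fin N => Icc (-⌈r⌉) ⌈r⌉)).Finite :=
    Set.Finite.pi fun _ => Set.finite_Icc _ _
  refine (hf.image cv).subset ?_
  rintro x ⟨hx, hr⟩
  obtain ⟨k, rfl⟩ := exists_cv hx
  refine ⟨k, ?_, rfl⟩
  intro i _
  have h1 : |(k i : ℝ)| ≤ r := by
    have h2 : ‖cv k i‖ ≤ ‖cv k‖ := norm_le_pi_norm (cv k) i
    rw [Real.norm_eq_abs] at h2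
    exact h2.trans hr
  have h3 : |(k i : ℝ)| ≤ (⌈r⌉ : ℝ) := h1.trans (Int.le_ceil r)
  have h4 : |k i| ≤ ⌈r⌉ := by exact_mod_cast h3
  exact abs_le.1 h4

theorem finite_bdd_rat (N : ℕ) (r : ℝ) (q : ℕ) (hq : 0 < q) :
    {x : E N | (q : ℝ) • x ∈ Zl N ∧ ‖x‖ ≤ r}.Finite := by
  have hq' : (q : ℝ) ≠ 0 := Nat.cast_ne_zero.2 hq.ne'
  have hinj : Function.Injective (fun x : E N => (q : ℝ) • x) := smul_right_injective (E N) hq'
  refine Set.Finite.of_finite_image ((finite_bdd N ((q : ℝ) * r)).subset ?_) hinj.injOn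
  rintro _ ⟨x, ⟨hx, hr⟩, rfl⟩
  refine ⟨hx, ?_⟩
  rw [norm_smul, Real.norm_natCast]
  exact mul_le_mul_of_nonneg_left hr (Nat.cast_nonneg q)

theorem finite_meet (q : ℕ) (hq : 0 < q) (K K' : Set (E N)) (hK : IsCompact K)
    (hK' : IsCompact K') (h : ∀ k ∈ K, O.nu k ≠ 0) :
    {u : E N | (q : ℝ) • u ∈ Zl N ∧ ∃ k ∈ K, O.mul u k ∈ K'}.Finite := by
  obtain ⟨c, hc, hcK⟩ := compact_lower O K hK h
  obtain ⟨R', hR'⟩ := hK'.isBounded.exists_norm_le
  refine (finite_bdd_rat N (R' / c) q hq).subset ?_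
  rintro u ⟨hu, k, hk, hm⟩
  refine ⟨hu, ?_⟩
  rw [le_div_iff₀ hc, mul_comm]
  exact (hcK k hk u).trans (hR' _ hm)

end Pool.Agent.MP_bb37eb_nt.ZB
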