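import Pool.Agent.Lib.MP_bb37eb_nt.ZB.LatD
import Pool.Agent.Lib.MP_bb37eb_nt.ZB.FinSub
import Pool.Agent.Lib.MP_bb37eb_nt.ZB.NuB

/-! Lattice sums over an intermediate lattice.

PROOF. Let `T = {r ∈ F | 0 ≤ r i < 1}`, finite by `fin_cube`. By `coset_equiv`, for `Y > 0` and
`h = 1 / Y`: `∑' x : F, ψ (Y⁻¹ • x) = ∑_{r ∈ T} ∑' k, ψ (h • (cv k + r)) = ∑_{r ∈ T} P ψ h r`
(only finitely many `x` contribute: `lat_unif`), so with `c = (card T) * ∫ ψ` and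
`C = card T * C₀` the estimate `lat_main M ψ` gives the claim (`(∫ ψ) / h^N = (∫ ψ) * Y^N`,
`C₀ h^M / h^N = C₀ Y^N / Y^M`). -/

namespace Pool.Agent.MP_bb37eb_nt.ZB

open Set Filter MeasureTheory

variable {N : ℕ}

theorem lat_finite (ψ : E N → ℝ) (hc : HasCompactSupport ψ) (F : AddSubgroup (E N)) (q : ℕ)
    (hq : 0 < q) (hF : ∀ x ∈ F, (q : ℝ) • x ∈ Zl N) (Y : ℝ) (hY : 0 < Y) :
    {x : E N | x ∈ F ∧ ψ (Y⁻¹ • x) ≠ 0}.Finite := by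
  obtain ⟨R, hR⟩ := hc.isCompact.isBounded.exists_norm_le
  refine (finite_bdd_rat N (Y * R) q hq).subset ?_
  rintro x ⟨hx, h0⟩
  refine ⟨hF x hx, ?_⟩
  have h1 := hR _ (subset_tsupport ψ h0)
  rw [norm_smul, norm_inv, Real.norm_of_nonneg hY.le, inv_mul_le_iff₀ hY] at h1
  exact h1

theorem lat_sub (ψ : E N → ℝ) (hψ : ContDiff ℝ (⊤ : ℕ∞) ψ) (hc : HasCompactSupport ψ)
    (F : AddSubgroup (E N)) (hZ : Zl N ≤ F) (q : ℕ) (hq : 0 < q)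
    (hF : ∀ x ∈ F, (q : ℝ) • x ∈ Zl N) (M : ℕ) :
    ∃ c C : ℝ, ∀ Y : ℝ, 1 ≤ Y →
      |∑' x : F, ψ (Y⁻¹ • (x : E N)) - c * Y ^ N| ≤ C * Y ^ N / Y ^ M := by
  obtain ⟨e, he⟩ := coset_equiv F hZ
  have hT : Finite {r : E N // r ∈ F ∧ ∀ i, 0 ≤ r i ∧ r i < 1} := by
    have h1 : {r : E N | r ∈ F ∧ ∀ i, 0 ≤ r i ∧ r i < 1}.Finite :=
      (fin_cube (N := N) q hq).subset fun r hr => ⟨hr.2, hF r hr.1⟩
    exact h1.to_subtype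
  have hT' : Fintype {r : E N // r ∈ F ∧ ∀ i, 0 ≤ r i ∧ r i < 1} := Fintype.ofFinite _
  obtain ⟨C₀, hC0, hC⟩ := lat_main M ψ hψ hc
  refine ⟨(Fintype.card {r : E N // r ∈ F ∧ ∀ i, 0 ≤ r i ∧ r i < 1} : ℝ) * ∫ x, ψ x,
    (Fintype.card {r : E N // r ∈ F ∧ ∀ i, 0 ≤ r i ∧ r i < 1} : ℝ) * C₀, fun Y hY => ?_⟩
  have hY0 : 0 < Y := zero_lt_one.trans_le hY
  have hfin := lat_finite ψ hc F q hq hF Y hY0
  have hsF : Summable (fun x : F => ψ (Y⁻¹ • (x : E N))) := by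
    apply summable_of_hasFiniteSupport
    have h1 : (Function.support fun x : F => ψ (Y⁻¹ • (x : E N))).Finite := by
      refine Set.Finite.of_finite_image (f := fun x : F => (x : E N)) (hfin.subset ?_)
        Subtype.val_injective.injOn
      rintro _ ⟨x, hx, rfl⟩
      exact ⟨x.2, hx⟩
    exact h1
  have hs : Summable (fun p : {r : E N // r ∈ F ∧ ∀ i, 0 ≤ r i ∧ r i < 1} × (Fin N → ℤ) =>
      ψ (Y⁻¹ • (cv p.2 + (p.1 : E N)))) := by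
    have h1 := e.summable_iff.2 hsF
    refine h1.congr fun p => ?_
    rw [Function.comp_apply, he p]
  have h2 : ∑' x : F, ψ (Y⁻¹ • (x : E N)) =
      ∑ r : {r : E N // r ∈ F ∧ ∀ i, 0 ≤ r i ∧ r i < 1}, P ψ Y⁻¹ (r : E N) := by
    rw [← e.tsum_eq (fun x : F => ψ (Y⁻¹ • (x : E N)))]
    simp only [he]
    rw [hs.tsum_prod, tsum_fintype]
    rfl
  have h3 : ∀ r : {r : E N // r ∈ F ∧ ∀ i, 0 ≤ r i ∧ r i < 1},
      |P ψ Y⁻¹ (r : E N) - (∫ x, ψ x) * Y ^ N| ≤ C₀ * Y ^ N / Y ^ M := by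
    intro r
    have h4 := hC Y⁻¹ (inv_pos.2 hY0) (inv_le_one_of_one_le₀ hY) r
    have e1 : (∫ x, ψ x) / Y⁻¹ ^ N = (∫ x, ψ x) * Y ^ N := by
      rw [inv_pow, div_inv_eq_mul]
    have e2 : C₀ * Y⁻¹ ^ M / Y⁻¹ ^ N = C₀ * Y ^ N / Y ^ M := by
      rw [inv_pow, inv_pow, div_inv_eq_mul]
      ring
    rwa [e1, e2] at h4
  have h5 : ∑' x : F, ψ (Y⁻¹ • (x : E N)) -
      (Fintype.card {r : E N // r ∈ F ∧ ∀ i, 0 ≤ r i ∧ r i < 1} : ℝ) * (∫ x, ψ x) * Y ^ N =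
      ∑ r : {r : E N // r ∈ F ∧ ∀ i, 0 ≤ r i ∧ r i < 1},
        (P ψ Y⁻¹ (r : E N) - (∫ x, ψ x) * Y ^ N) := by
    rw [h2, Finset.sum_sub_distrib, Finset.sum_const, Finset.card_univ, nsmul_eq_mul, mul_assoc]
  rw [h5]
  refine (Finset.abs_sum_le_sum_abs _ _).trans ((Finset.sum_le_sum fun r _ => h3 r).trans ?_)
  rw [Finset.sum_const, Finset.card_univ, nsmul_eq_mul]
  apply le_of_eq
  ring

end Pool.Agent.MP_bb37eb_nt.ZB
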