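import Pool.Agent.Lib.MP_bb37eb_nt.ZB.GamB
import Pool.Agent.Lib.MP_bb37eb_nt.ZB.LatE

/-! The sum over a class of left ideals as a lattice sum.

PROOFS.
* `cls_equiv`: for every `J` in the class of `I` choose `x_J ∈ L I`, nonzero, with `I x_J = J`
  (`exists_L`). The map `(J, u) ↦ u x_J` is a bijection from `Σ J, Gam I` to the nonzero elements of
  `L I`: it is well defined by `L_smul_gam` and `mul_ne_zero'`; its inverse sends `x` to
  `J = I x` (a left ideal of finite index in the class, `li_L`, `rel_of_L`) and the `u` with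
  `x = u x_J` of `same_orbit` (unique by `R_injective`). Note `I (u x_J) = (I u) x_J = J`.
* `class_sum`: put `x_J` as above; `nu x_J = idx J / idx I` by `idx_rmul`. For fixed `Y > 0` only finitely
  many `x ∈ L I` have `ψ (Y⁻¹ • x) ≠ 0` (`lat_finite` with `L_le`), so all sums are finite and
  `∑' x : L I, ψ (Y⁻¹ • x) = ∑' x : nonzero elements, ψ (Y⁻¹ • x)` (as `ψ 0 = 0`)
  `= ∑' J, ∑' u, ψ (Y⁻¹ • (u x_J)) = ∑' J, ∑' u, ψ (u (Y⁻¹ • x_J)) = ∑' J, g ((nu (Y⁻¹ • x_J))^(1/N))`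
  and `nu (Y⁻¹ • x_J) = Y^(-N) nu x_J` (`nu_smul`), so its `N`-th root is
  `(idx J / idx I)^(1/N) / Y` (`Real.mul_rpow`, `Real.rpow_natCast_mul`, `O.pos`).
  (`Equiv.tsum_eq`, `Summable.tsum_sigma'`, `summable_of_finite_support`.)
  Finiteness: if the `J`-term is not zero then some `u` has `ψ (Y⁻¹ • (u x_J)) ≠ 0`, so `J = I x`
  for one of the finitely many `x ∈ L I` with `ψ (Y⁻¹ • x) ≠ 0`.
-/

namespace Pool.Agent.MP_bb37eb_nt.ZB

open Set Filter MeasureTheory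

variable {N : ℕ} (O : DivOrder N)

theorem cls_equiv (I : AddSubgroup (E N)) (hI : O.LI I) :
    ∃ (x : {J : AddSubgroup (E N) // O.LI J ∧ O.Rel I J} → E N)
      (e : ({J : AddSubgroup (E N) // O.LI J ∧ O.Rel I J} × O.Gam I) ≃
        {x : E N // x ∈ O.L I ∧ x ≠ 0}),
      (∀ J, x J ∈ O.L I ∧ O.nu (x J) ≠ 0 ∧ O.rmul I (x J) = J.1) ∧
      ∀ p, (e p : E N) = O.mul (p.2 : E N) (x p.1) := by
  choose x hx using fun J : {J : AddSubgroup (E N) // O.LI J ∧ O.Rel I J} =>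
    exists_L O I J.1 J.2.1 J.2.2
  have hbij : Function.Bijective
      (fun p : {J : AddSubgroup (E N) // O.LI J ∧ O.Rel I J} × O.Gam I =>
        (⟨O.mul (p.2 : E N) (x p.1), L_smul_gam O I _ _ p.2.2 (hx p.1).1,
          mul_ne_zero' O _ _ (gam_ne O I hI _ p.2.2) (hx p.1).2.1⟩ :
          {x : E N // x ∈ O.L I ∧ x ≠ 0})) := by
    constructor
    · rintro ⟨J, u⟩ ⟨J', u'⟩ h
      have h1 : O.mul (u : E N) (x J) = O.mul (u' : E N) (x J') := congrArg Subtype.val h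
      have h2 : O.rmul I (O.mul (u : E N) (x J)) = J.1 := by
        rw [rmul_mul]
        have : O.rmul I (u : E N) = I := u.2
        rw [this]
        exact (hx J).2.2.2
      have h3 : O.rmul I (O.mul (u' : E N) (x J')) = J'.1 := by
        rw [rmul_mul]
        have : O.rmul I (u' : E N) = I := u'.2
        rw [this]
        exact (hx J').2.2.2
      have h4 : J = J' := by
        apply Subtype.ext
        rw [← h2, ← h3, h1]
      subst h4
      have h5 := R_injective O (x J) (hx J).2.2.1 _ _ h1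
      rw [Subtype.ext h5]
    · rintro ⟨y, hy, hy0⟩
      let J : {J : AddSubgroup (E N) // O.LI J ∧ O.Rel I J} :=
        ⟨O.rmul I y, li_L O I hI y hy hy0, rel_of_L O I hI y hy hy0⟩
      obtain ⟨u, hu, h⟩ := same_orbit O I y (x J) (L_ne O I hI y hy hy0) (hx J).2.2.1
        (hx J).2.2.2.symm
      exact ⟨(J, ⟨u, hu⟩), Subtype.ext h.symm⟩
  exact ⟨x, Equiv.ofBijective _ hbij, fun J => ⟨(hx J).1, (hx J).2.2.1, (hx J).2.2.2⟩,
    fun p => rfl⟩

theorem class_sum (I : AddSubgroup (E N)) (hI : O.LI I) (ψ : E N → ℝ) (g : ℝ → ℝ)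
    (hc : HasCompactSupport ψ) (h0 : ψ 0 = 0)
    (hψ : ∀ x, O.nu x ≠ 0 → {u : O.Gam I | ψ (O.mul (u : E N) x) ≠ 0}.Finite ∧
        ∑' u : O.Gam I, ψ (O.mul (u : E N) x) = g ((O.nu x) ^ ((1 : ℝ) / N)))
    (Y : ℝ) (hY : 0 < Y) :
    ∑' x : O.L I, ψ (Y⁻¹ • (x : E N)) =
        ∑' J : {J : AddSubgroup (E N) // O.LI J ∧ O.Rel I J},
          g (((idx J.1 : ℝ) / idx I) ^ ((1 : ℝ) / N) / Y) ∧
      {J : AddSubgroup (E N) | (O.LI J ∧ O.Rel I J) ∧
        g (((idx J : ℝ) / idx I) ^ ((1 : ℝ) / N) / Y) ≠ 0}.Finite := by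
  obtain ⟨x, e, hx, he⟩ := cls_equiv O I hI
  obtain ⟨q, hq, hL⟩ := L_le O I hI
  have hfin := lat_finite ψ hc (O.L I) q hq hL Y hY
  have hN : (N : ℝ) ≠ 0 := by
    have := O.pos
    positivity
  have hI0 : (0 : ℝ) < idx I := by
    exact_mod_cast idx_li_pos O I hI
  -- the value of `nu` at `x J`
  have hnu : ∀ J, O.nu (x J) = (idx J.1 : ℝ) / idx I := by
    intro J
    have h1 := idx_rmul O I hI (x J) (hx J).2.1 (by
      rw [(hx J).2.2]
      exact J.2.1.le)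
    rw [(hx J).2.2] at h1
    rw [h1]
    field_simp
  have hYi : (0 : ℝ) < Y⁻¹ := inv_pos.2 hY
  have hval : ∀ J, (O.nu (Y⁻¹ • x J)) ^ ((1 : ℝ) / N) =
      ((idx J.1 : ℝ) / idx I) ^ ((1 : ℝ) / N) / Y := by
    intro J
    rw [nu_smul, hnu, abs_of_pos hYi, Real.mul_rpow (by positivity) (by positivity),
      ← Real.rpow_natCast, ← Real.rpow_mul hYi.le, mul_one_div_cancel hN, Real.rpow_one]
    exact (div_eq_inv_mul _ _).symm
  have hne : ∀ J, O.nu (Y⁻¹ • x J) ≠ 0 := by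
    intro J
    rw [nu_smul]
    exact mul_ne_zero (pow_ne_zero _ (abs_ne_zero.2 hYi.ne')) (hx J).2.1
  have hinner : ∀ J, ∑' u : O.Gam I, ψ (Y⁻¹ • O.mul (u : E N) (x J)) =
      g (((idx J.1 : ℝ) / idx I) ^ ((1 : ℝ) / N) / Y) := by
    intro J
    rw [← hval J, ← (hψ _ (hne J)).2]
    refine tsum_congr fun u => ?_
    rw [map_smul]
  constructor
  · have hsupp : (Function.support (fun y : {x : E N // x ∈ O.L I ∧ x ≠ 0} =>
        ψ (Y⁻¹ • (y : E N)))).Finite := by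
      refine Set.Finite.of_finite_image
        (f := fun y : {x : E N // x ∈ O.L I ∧ x ≠ 0} => (y : E N)) (hfin.subset ?_)
        Subtype.val_injective.injOn
      rintro _ ⟨y, hy, rfl⟩
      exact ⟨y.2.1, hy⟩
    have hs0 : Summable (fun y : {x : E N // x ∈ O.L I ∧ x ≠ 0} => ψ (Y⁻¹ • (y : E N))) :=
      summable_of_finite_support hsupp
    have hinj : Function.Injective (fun y : {x : E N // x ∈ O.L I ∧ x ≠ 0} =>
        (⟨(y : E N), y.2.1⟩ : O.L I)) := by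
      intro y y' h
      exact Subtype.ext (congrArg (fun t : O.L I => (t : E N)) h)
    have h1 : ∑' y : {x : E N // x ∈ O.L I ∧ x ≠ 0}, ψ (Y⁻¹ • (y : E N)) =
        ∑' x : O.L I, ψ (Y⁻¹ • (x : E N)) := by
      refine hinj.tsum_eq (f := fun x : O.L I => ψ (Y⁻¹ • (x : E N))) ?_
      intro y hy
      have hy' : ψ (Y⁻¹ • (y : E N)) ≠ 0 := hy
      refine ⟨⟨(y : E N), y.2, ?_⟩, rfl⟩
      intro hz
      apply hy'
      rw [hz, smul_zero, h0]
    rw [← h1, ← e.tsum_eq (fun y : {x : E N // x ∈ O.L I ∧ x ≠ 0} => ψ (Y⁻¹ • (y : E N)))]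
    have hs1 : Summable (fun p : {J : AddSubgroup (E N) // O.LI J ∧ O.Rel I J} × O.Gam I =>
        ψ (Y⁻¹ • O.mul (p.2 : E N) (x p.1))) := by
      have h2 := e.summable_iff.2 hs0
      refine h2.congr fun p => ?_
      rw [Function.comp_apply, he p]
    simp only [he]
    rw [hs1.tsum_prod]
    exact tsum_congr hinner
  · refine (hfin.image (fun y => O.rmul I y)).subset ?_
    rintro J ⟨hJ, hg⟩
    rw [← hinner ⟨J, hJ⟩] at hg
    obtain ⟨u, hu⟩ : ∃ u : O.Gam I, ψ (Y⁻¹ • O.mul (u : E N) (x ⟨J, hJ⟩)) ≠ 0 := by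
      by_contra hcon
      apply hg
      have : ∀ u : O.Gam I, ψ (Y⁻¹ • O.mul (u : E N) (x ⟨J, hJ⟩)) = 0 := by
        intro u
        by_contra h
        exact hcon ⟨u, h⟩
      simp [this]
    refine ⟨O.mul (u : E N) (x ⟨J, hJ⟩), ⟨L_smul_gam O I _ _ u.2 (hx _).1, hu⟩, ?_⟩
    show O.rmul I (O.mul (u : E N) (x ⟨J, hJ⟩)) = J
    rw [rmul_mul]
    have : O.rmul I (u : E N) = I := u.2
    rw [this]
    exact (hx _).2.2

end Pool.Agent.MP_bb37eb_nt.ZB
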