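import Pool.Agent.Lib.MP_bb37eb_nt.ZB.Core

/-! Minkowski's theorem.

PROOF. Mathlib: `MeasureTheory.exists_ne_zero_mem_lattice_of_measure_mul_two_pow_lt_measure` with
`L` = the additive subgroup `(Submodule.span ℤ (Set.range (Pi.basisFun ℝ (Fin N)))).toAddSubgroup`
(elements: integer vectors; membership `Module.Basis.mem_span_iff_repr_mem` or
`ZSpan`-lemmas), fundamental domain `ZSpan.fundamentalDomain (Pi.basisFun ℝ (Fin N))`
(`ZSpan.isAddFundamentalDomain`), whose volume is `1` (`ZSpan.fundamentalDomain_pi_basisFun` and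
`Real.volume_Ico_pi`-like lemma; `ZSpan.fundamentalDomain (Pi.basisFun ..) = Set.pi univ (Ico 0 1)`).
Set `s = {v | ‖A v‖ ≤ 2 t}` = preimage of the closed ball. It is convex and symmetric;
its volume is `ofReal |det A|⁻¹ * volume (closedBall 0 (2 t))`
(`MeasureTheory.Measure.addHaar_preimage_linearMap`), and `volume (closedBall 0 (2t)) = (4 t)^N`
(`Real.volume_pi_closedBall`). Since `|det A| ≤ t^N`, the volume of `s` is at least `4^N > 2^N`
(`N > 0`), so there is a nonzero integer vector in `s`. -/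

namespace Pool.Agent.MP_bb37eb_nt.ZB

open Set Filter MeasureTheory

theorem mink_span_mem {N : ℕ} {x : E N}
    (hx : x ∈ (Submodule.span ℤ (Set.range (Pi.basisFun ℝ (Fin N)))).toAddSubgroup) :
    x ∈ Zl N := by
  have hx' : x ∈ Submodule.span ℤ (Set.range (Pi.basisFun ℝ (Fin N))) := hx
  intro i
  have := (Module.Basis.mem_span_iff_repr_mem ℤ (Pi.basisFun ℝ (Fin N)) x).1 hx' i
  obtain ⟨k, hk⟩ := this
  refine ⟨k, ?_⟩
  simpa using hk.symm

theorem mink_vol_fund {N : ℕ} :
    volume (ZSpan.fundamentalDomain (Pi.basisFun ℝ (Fin N))) = 1 := by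
  rw [ZSpan.fundamentalDomain_pi_basisFun, volume_pi_pi]
  simp

theorem minkowski {N : ℕ} (hN : 0 < N) (A : E N →ₗ[ℝ] E N) (hA : LinearMap.det A ≠ 0) (t : ℝ)
    (ht : 0 < t) (h : |LinearMap.det A| ≤ t ^ N) :
    ∃ k ∈ Zl N, k ≠ 0 ∧ ‖A k‖ ≤ 2 * t := by
  classical
  let b := Pi.basisFun ℝ (Fin N)
  let s : Set (E N) := A ⁻¹' Metric.closedBall 0 (2 * t)
  have hdet : 0 < |LinearMap.det A| := abs_pos.2 hA
  have hvs : volume s = ENNReal.ofReal (|LinearMap.det A|⁻¹ * (4 * t) ^ N) := by
    have h1 : volume s = ENNReal.ofReal |(LinearMap.det A)⁻¹| *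
        volume (Metric.closedBall (0 : E N) (2 * t)) :=
      Measure.addHaar_preimage_linearMap volume hA _
    rw [h1, Real.volume_pi_closedBall _ (by positivity), ← ENNReal.ofReal_mul (abs_nonneg _),
      abs_inv, Fintype.card_fin]
    congr 2
    ring
  have hlt : volume (ZSpan.fundamentalDomain b) * 2 ^ Module.finrank ℝ (E N) < volume s := by
    rw [mink_vol_fund, one_mul, hvs, Module.finrank_fin_fun]
    have e2 : (2 : ENNReal) ^ N = ENNReal.ofReal (2 ^ N) := by
      rw [ENNReal.ofReal_pow (by norm_num)]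
      norm_num
    rw [e2]
    apply (ENNReal.ofReal_lt_ofReal_iff (by positivity)).2
    have e3 : (2 : ℝ) ^ N < 4 ^ N := pow_lt_pow_left₀ (by norm_num) (by norm_num) hN.ne'
    have e4 : (4 : ℝ) ^ N ≤ |LinearMap.det A|⁻¹ * (4 * t) ^ N := by
      rw [mul_pow, ← div_eq_inv_mul, le_div_iff₀ hdet]
      exact mul_le_mul_of_nonneg_left h (by positivity)
    exact lt_of_lt_of_le e3 e4
  have hconv : Convex ℝ s := (convex_closedBall (0 : E N) (2 * t)).linear_preimage A
  have hsymm : ∀ x ∈ s, -x ∈ s := by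
    intro x hx
    simp only [s, Set.mem_preimage, Metric.mem_closedBall, dist_zero_right, map_neg,
      norm_neg] at hx ⊢
    exact hx
  have : Countable (Submodule.span ℤ (Set.range b)).toAddSubgroup := by
    have : Countable (Zl N) := by
      have hsurj : Function.Surjective
          (fun k : Fin N → ℤ => (⟨cv k, cv_mem k⟩ : Zl N)) := by
        rintro ⟨x, hx⟩
        obtain ⟨k, hk⟩ := exists_cv hx
        exact ⟨k, Subtype.ext hk⟩
      exact hsurj.countable
    exact (Set.inclusion_injective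
      (fun x hx => mink_span_mem hx :
        ((Submodule.span ℤ (Set.range b)).toAddSubgroup : Set (E N)) ⊆ (Zl N : Set (E N)))).countable
  obtain ⟨x, hx0, hx⟩ :=
    MeasureTheory.exists_ne_zero_mem_lattice_of_measure_mul_two_pow_lt_measure
      (ZSpan.isAddFundamentalDomain' b volume) hsymm hconv hlt
  refine ⟨x, mink_span_mem x.2, ?_, ?_⟩
  · exact fun h0 => hx0 (Subtype.ext h0)
  · simpa [s] using hx

end Pool.Agent.MP_bb37eb_nt.ZB
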