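import Pool.Agent.Lib.MP_bb37eb_nt.ZB.GamB
import Pool.Agent.Lib.MP_bb37eb_nt.ZB.FinSub
import Pool.Agent.Lib.MP_bb37eb_nt.ZB.Mink

/-! `Gam I` is cocompact on `{nu = 1}`.

PROOF. Let `q • Zl N ⊆ I` and let `B ≥ 1` be the constant of `nu_le`, `M = ⌈B * (2 q)^N⌉`.

(1) `inv_between`: for `l ∈ I`, `l ≠ 0`, with inverse `l'` (`exists_inv`; `l` is a nonzero integer
vector), and `m = nu l` (a natural number, `nu_int`): `Zl N ≤ I l'` (for an integer vector `a`:
`a l ∈ I` because `I` is a left ideal, and `a = (a l) l'`), and `m • (I l') ⊆ Zl N`: by `inv_int`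
there is an integer vector `y` with `l y = m • 1`, hence `y = m • l'` (multiply by `l'` from the left), so
for `v ∈ I`: `m • (v l') = v y ∈ Zl N`.
So if `nu l ≤ M` then `Zl N ≤ I l'` and `(M !) • (I l') ⊆ Zl N`, and by `finite_sub` there are only
finitely many possibilities for the group `I l'`.

(2) choose for each group `G` that occurs as `I l'` with `l ∈ I`, `l ≠ 0`, `nu l ≤ M`, one such
`l = l_G` with inverse `l_G'`. Let `K0 = {y | ‖y‖ ≤ 2 q ∧ 1 ≤ nu y}`, compact (closed and bounded,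
`nu_cont`), and `K = {nu = 1} ∩ ⋃_G l_G' K0`, compact.

(3) Let `nu x = 1`. By `minkowski` applied to `A = O.R x` (`|det| = 1`) and `t = 1` there is a nonzero
integer vector `k` with `‖k x‖ ≤ 2`. Let `l = q • k ∈ I`, `l ≠ 0`. Then `‖l x‖ ≤ 2 q` and
`nu l = nu l * nu x = nu (l x) ≤ B (2 q)^N ≤ M`, and `1 ≤ nu l = nu (l x)` by `one_le_nu`. So
`l x ∈ K0`. Let `G = I l'`; then `I l_G' = G = I l'`. Put `u = l_G' l`. Then
`I u = (I l_G') l = (I l') l = I`, so `u ∈ Gam I`, and `u x = l_G' (l x) ∈ l_G' K0`, and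
`nu (u x) = nu u * nu x = 1` (`gam_nu`). So `u x ∈ K`. -/

namespace Pool.Agent.MP_bb37eb_nt.ZB

open Set Filter MeasureTheory

variable {N : ℕ} (O : DivOrder N)

theorem inv_between (I : AddSubgroup (E N)) (hI : O.LI I) (l l' : E N) (hl : l ∈ I)
    (h0 : l ≠ 0) (h1 : O.mul l l' = O.one) (h2 : O.mul l' l = O.one) (M : ℕ)
    (hM : O.nu l ≤ M) : Zl N ≤ O.rmul I l' ∧ ∀ x ∈ O.rmul I l', ((M.factorial : ℕ) : ℝ) • x ∈ Zl N := by
  constructor
  · intro a ha
    refine O.mem_rmul.2 ⟨O.mul a l, hI.left a ha l hl, ?_⟩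
    rw [O.assoc, h1, O.mul_one]
  · intro x hx
    obtain ⟨v, hv, rfl⟩ := O.mem_rmul.1 hx
    have hlZ : l ∈ Zl N := hI.le hl
    obtain ⟨y, hy, h3, h4⟩ := inv_int O l hlZ h0
    obtain ⟨k, hk⟩ := nu_int O l hlZ
    have hk1 : 1 ≤ k := by
      have h5 := one_le_nu O l hlZ h0
      rw [hk] at h5
      exact_mod_cast h5
    have hkM : k ≤ M := by
      rw [hk] at hM
      exact_mod_cast hM
    have h5 : y = (k : ℝ) • l' := by
      have h6 : O.mul l' (O.mul l y) = O.mul l' (O.nu l • O.one) := by rw [h4]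
      rw [← O.assoc, h2, O.one_mul, map_smul, O.mul_one, hk] at h6
      exact h6
    have h6 : (k : ℝ) • O.mul v l' ∈ Zl N := by
      rw [← map_smul, ← h5]
      exact O.int_mul v (hI.le hv) y hy
    obtain ⟨j, hj⟩ := Nat.dvd_factorial hk1 hkM
    rw [hj, Nat.cast_mul, mul_comm, mul_smul, Nat.cast_smul_eq_nsmul]
    exact (Zl N).nsmul_mem h6 j

/-- the defining property of the chosen elements (auxiliary, prefix coc) -/
def coc_P (I F : AddSubgroup (E N)) (l' : E N) : Prop :=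
  ∃ l ∈ I, O.mul l l' = O.one ∧ O.mul l' l = O.one ∧ O.rmul I l' = F

theorem cocompact (I : AddSubgroup (E N)) (hI : O.LI I) :
    ∃ K : Set (E N), IsCompact K ∧ (∀ x ∈ K, O.nu x = 1) ∧
      ∀ x, O.nu x = 1 → ∃ u ∈ O.Gam I, O.mul u x ∈ K := by
  classical
  obtain ⟨q, hq, hqI⟩ := hI.fin
  obtain ⟨B, hB1, hB⟩ := nu_le O
  obtain ⟨M, hM⟩ := exists_nat_ge (B * (2 * q) ^ N)
  have hfin := finite_sub (N := N) M.factorial M.factorial_pos
  obtain ⟨S, hS⟩ : ∃ S : Set (AddSubgroup (E N)), S = {F : AddSubgroup (E N) | Zl N ≤ F ∧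
    ∀ x ∈ F, ((M.factorial : ℕ) : ℝ) • x ∈ Zl N} := ⟨_, rfl⟩
  rw [← hS] at hfin
  have hg : ∀ F : AddSubgroup (E N), ∃ l' : E N, (∃ l'', coc_P O I F l'') → coc_P O I F l' := by
    intro F
    by_cases h : ∃ l'', coc_P O I F l''
    · exact ⟨h.choose, fun _ => h.choose_spec⟩
    · exact ⟨0, fun h' => absurd h' h⟩
  choose g hg using hg
  refine ⟨⋃ F ∈ S, ((fun y => O.mul (g F) y) '' Metric.closedBall (0 : E N) (2 * q)) ∩
    {x | O.nu x = 1}, ?_, ?_, ?_⟩
  · refine hfin.isCompact_biUnion fun F _ => ?_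
    refine IsCompact.inter_right ?_ (isClosed_eq (nu_cont O) continuous_const)
    refine (isCompact_closedBall _ _).image ?_
    exact LinearMap.continuous_of_finiteDimensional (O.mul (g F))
  · intro x hx
    rw [mem_iUnion₂] at hx
    obtain ⟨F, _, hx⟩ := hx
    exact hx.2
  · intro x hx
    have hq' : (0 : ℝ) < q := by exact_mod_cast hq
    have hdet : |LinearMap.det (O.R x)| = 1 := hx
    obtain ⟨k, hk, hk0, hk1⟩ := minkowski O.pos (O.R x) (by
      intro h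
      rw [h, abs_zero] at hdet
      exact zero_ne_one hdet) 1 one_pos (by rw [hdet, one_pow])
    have hlI : (q : ℝ) • k ∈ I := hqI k hk
    have hl0 : (q : ℝ) • k ≠ 0 := smul_ne_zero hq'.ne' hk0
    have hlx : ‖O.mul ((q : ℝ) • k) x‖ ≤ 2 * q := by
      rw [map_smul, LinearMap.smul_apply, norm_smul, Real.norm_of_nonneg hq'.le]
      have h1 : ‖O.mul k x‖ ≤ 2 * 1 := hk1
      nlinarith
    have hnl : O.nu ((q : ℝ) • k) ≤ M := by
      have h1 : O.nu ((q : ℝ) • k) = O.nu (O.mul ((q : ℝ) • k) x) := by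
        rw [nu_mul, hx, _root_.mul_one]
      rw [h1]
      refine (hB _).trans (le_trans ?_ hM)
      exact mul_le_mul_of_nonneg_left (pow_le_pow_left₀ (norm_nonneg _) hlx N) (by linarith)
    have hn1 := one_le_nu O _ (hI.le hlI) hl0
    obtain ⟨l', h1, h2, _, _⟩ := exists_inv O ((q : ℝ) • k) (by linarith)
    have hF := inv_between O I hI _ l' hlI hl0 h1 h2 M hnl
    have hFS : O.rmul I l' ∈ S := by
      rw [hS]
      exact hF
    obtain ⟨l₀, hl₀, h3, h4, h5⟩ := hg (O.rmul I l') ⟨l', _, hlI, h1, h2, rfl⟩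
    have hu : O.mul (g (O.rmul I l')) ((q : ℝ) • k) ∈ O.Gam I := by
      show O.rmul I (O.mul (g (O.rmul I l')) ((q : ℝ) • k)) = I
      rw [rmul_mul, h5, rmul_cancel O I l' _ h2]
    refine ⟨_, hu, ?_⟩
    rw [mem_iUnion₂]
    refine ⟨O.rmul I l', hFS, ⟨O.mul ((q : ℝ) • k) x, ?_, ?_⟩, ?_⟩
    · rw [mem_closedBall_zero_iff]
      exact hlx
    · exact (O.assoc _ _ _).symm
    · show O.nu _ = 1
      rw [nu_mul, gam_nu O I hI _ hu, hx, _root_.mul_one]

end Pool.Agent.MP_bb37eb_nt.ZB
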