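import Pool.Agent.Lib.MP_bb37eb_nt.ZB.Tot
import Pool.Agent.Lib.MP_bb37eb_nt.ZA.ZFinal

/-! The contradiction.

PROOF. Let `w` be smooth, `w ≥ 0`, supported in `[a, b]` with `0 < a`. Put `g s = w (s ^ n)` for
`s ≥ 0` and `g s = 0` for `s < 0`: smooth, with compact support in `(0, ∞)`. By `total_asymp` with
`M = 2 n`, `N = n * n`: `|∑' J, g ((idx J)^(1/N) / Z) - c Z^N| ≤ C Z^N / Z^(2n)` for `Z ≥ 1`. Let `Y ≥ 1`
and `Z = Y^(1/n)`. Then `((idx J)^(1/N) / Z)^n = (idx J)^(1/n) / Y`, `Z^N = Y^n`, `Z^(2n) = Y^2`, which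
is `ZA.ZBOut n O`. The contradiction is `ZA.no_division` (coordinates: `ZA.divOrder`, counting of left
ideals: `ZA.sum_eq_GG`, analysis: `ZA.no_power_saving`). -/

namespace Pool.Agent.MP_bb37eb_nt.ZB

open Set Module Filter Topology

/-- the weight in the coordinate `s`, `t = s ^ n` -/
noncomputable def fin_g (n : ℕ) (w : ℝ → ℝ) (s : ℝ) : ℝ := if 0 ≤ s then w (s ^ n) else 0

theorem fin_g_low {n : ℕ} (hn : n ≠ 0) {w : ℝ → ℝ} {a b : ℝ}
    (hw : ∀ t, t ∉ Icc a b → w t = 0) {s : ℝ} (hs : s < min 1 a) : fin_g n w s = 0 := by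
  unfold fin_g
  split_ifs with h
  · apply hw
    intro h1
    have h2 : s ^ n ≤ s := pow_le_of_le_one h (le_of_lt (lt_of_lt_of_le hs (min_le_left _ _))) hn
    have h3 := lt_of_lt_of_le hs (min_le_right _ _)
    linarith [h1.1]
  · rfl

theorem fin_g_high {n : ℕ} (hn : n ≠ 0) {w : ℝ → ℝ} {a b : ℝ}
    (hw : ∀ t, t ∉ Icc a b → w t = 0) {s : ℝ} (hs : max 1 b < s) : fin_g n w s = 0 := by
  unfold fin_g
  split_ifs with h
  · apply hw
    intro h1
    have h2 : s ≤ s ^ n := le_self_pow₀ (le_of_lt (lt_of_le_of_lt (le_max_left _ _) hs)) hn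
    have h3 := lt_of_le_of_lt (le_max_right _ _) hs
    linarith [h1.2]
  · rfl

theorem fin_g_tsupport {n : ℕ} (hn : n ≠ 0) {w : ℝ → ℝ} {a b : ℝ}
    (hw : ∀ t, t ∉ Icc a b → w t = 0) :
    tsupport (fin_g n w) ⊆ Icc (min 1 a) (max 1 b) := by
  refine closure_minimal ?_ isClosed_Icc
  intro s hs
  constructor
  · by_contra h
    exact hs (fin_g_low hn hw (not_le.mp h))
  · by_contra h
    exact hs (fin_g_high hn hw (not_le.mp h))

theorem fin_g_smooth {n : ℕ} (hn : n ≠ 0) {w : ℝ → ℝ} (hw1 : ContDiff ℝ (⊤ : ℕ∞) w) {a b : ℝ}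
    (ha : 0 < a) (hw : ∀ t, t ∉ Icc a b → w t = 0) : ContDiff ℝ (⊤ : ℕ∞) (fin_g n w) := by
  rw [contDiff_iff_contDiffAt]
  intro s
  have hδ : 0 < min 1 a := lt_min one_pos ha
  rcases lt_or_ge s (min 1 a) with h | h
  · have h1 : fin_g n w =ᶠ[𝓝 s] fun _ => 0 := by
      filter_upwards [Iio_mem_nhds h] with t ht
      exact fin_g_low hn hw ht
    exact (contDiffAt_const (c := (0 : ℝ))).congr_of_eventuallyEq h1
  · have hs : 0 < s := lt_of_lt_of_le hδ h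
    have h1 : fin_g n w =ᶠ[𝓝 s] fun t => w (t ^ n) := by
      filter_upwards [Ioi_mem_nhds hs] with t ht
      have ht' : (0 : ℝ) ≤ t := le_of_lt ht
      simp only [fin_g, if_pos ht']
    exact ((hw1.comp (contDiff_id.pow n)).contDiffAt).congr_of_eventuallyEq h1

/-- the analytic statement about left ideals, in the form used in `ZA` -/
theorem fin_ZBOut (n : ℕ) (hn : 2 ≤ n) (O : DivOrder (n * n)) : ZA.ZBOut n O := by
  intro w a b ha hw1 hw0 hw
  have hn0 : n ≠ 0 := by omega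
  have hnR : (n : ℝ) ≠ 0 := by exact_mod_cast hn0
  have hδ : 0 < min 1 a := lt_min one_pos ha
  obtain ⟨c, C, h⟩ := total_asymp O (fin_g n w) (fin_g_smooth hn0 hw1 ha hw)
    (HasCompactSupport.of_support_subset_isCompact (isCompact_Icc (a := min 1 a) (b := max 1 b))
      (subset_closure.trans (fin_g_tsupport hn0 hw)))
    ((fin_g_tsupport hn0 hw).trans fun s hs => lt_of_lt_of_le hδ hs.1) (2 * n)
  refine ⟨c, C, fun Y hY => ?_⟩
  have hY0 : 0 < Y := lt_of_lt_of_le one_pos hY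
  set Z : ℝ := Y ^ ((1 : ℝ) / n) with hZ
  have hZ0 : 0 < Z := Real.rpow_pos_of_pos hY0 _
  have hZ1 : 1 ≤ Z := Real.one_le_rpow hY (by positivity)
  have hZn : Z ^ n = Y := by
    rw [hZ, one_div, Real.rpow_inv_natCast_pow hY0.le hn0]
  have h1 := h Z hZ1
  have e1 : ∀ J : {J : AddSubgroup (E (n * n)) // O.LI J},
      fin_g n w ((idx J.1 : ℝ) ^ ((1 : ℝ) / ((n * n : ℕ) : ℝ)) / Z) =
        w ((idx J.1 : ℝ) ^ (1 / (n : ℝ)) / Y) := by
    intro J
    have h2 : 0 ≤ (idx J.1 : ℝ) ^ ((1 : ℝ) / ((n * n : ℕ) : ℝ)) / Z :=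
      div_nonneg (Real.rpow_nonneg (Nat.cast_nonneg _) _) hZ0.le
    unfold fin_g
    rw [if_pos h2, div_pow, hZn, ← Real.rpow_natCast, ← Real.rpow_mul (Nat.cast_nonneg _)]
    congr 3
    push_cast
    field_simp
  have e2 : Z ^ (n * n) = Y ^ (n : ℝ) := by
    rw [pow_mul, hZn, Real.rpow_natCast]
  have e3 : C * Z ^ (n * n) / Z ^ (2 * n) = C * Y ^ ((n : ℝ) - 2) := by
    have h3 : Z ^ (2 * n) = Y ^ 2 := by
      rw [mul_comm, pow_mul, hZn]
    rw [e2, h3, Real.rpow_sub hY0, mul_div_assoc]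
    congr 2
    exact (Real.rpow_natCast Y 2).symm
  rw [e3, tsum_congr e1, e2] at h1
  exact h1

theorem zb_false (n : ℕ) (hn : 2 ≤ n) (D : Type*) [DivisionRing D] [Algebra ℚ D]
    [FiniteDimensional ℚ D] (Λ : Subring D) (hΛ : ZA.IsOrd Λ) (b : Basis (Fin (n * n)) ℤ Λ)
    (hred : ZA.MatRed Λ n) : False := by
  have : NeZero n := ⟨by omega⟩
  exact ZA.no_division hn hΛ (Nat.mul_pos (by omega) (by omega)) b hred (fin_ZBOut n hn _)

end Pool.Agent.MP_bb37eb_nt.ZB
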