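import Pool.Agent.Lib.MP_bb37eb_nt.ZB.Core

/-! Index of sublattices.

PROOFS.
* `idx_map`: if the linear map `T` maps `Zl N` into `Zl N` and `det T ≠ 0` then the index of the
  image is `|det T|`. Mathlib: `ZLattice.covolume_div_covolume_eq_relIndex` (or the version for
  `ι → ℝ`), together with the covolume of `Zl N` (= 1) and of its image
  (= `|det T|`, `ZLattice.covolume_eq_det`); or `Submodule.natAbs_det_basis_change` /
  `Int.natAbs_det...` for the submodule of `Fin N → ℤ` spanned by the columns; or the measure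
  argument with fundamental domains. Any route.
* `exists_map`: a subgroup `J ≤ Zl N` which contains `q • Zl N` (`q > 0`) is of the form `T (Zl N)`
  with `det T ≠ 0`: the preimage of `J` in `Fin N → ℤ` under `cv` is a subgroup (submodule over `ℤ`)
  of the free module `Fin N → ℤ` which contains `q • ⊤`, so it is free of rank `N` with a basis
  `b : Fin N → ..` (`Submodule.basisOfPid`, `Submodule.smithNormalForm`, or
  `Submodule.finiteQuotientOfFreeOfRankEq`-type lemmas, `Module.finrank` comparisons), and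
  `T e_j = cv (b j)`, i.e. `T = Fintype.linearCombination`. `det T ≠ 0` since the image of `T`
  contains `q e_j` for all `j`, so `T` is surjective.
* `idx_pos`: finite index: `idx J ≠ 0` (from `exists_map` and `idx_map`, or directly).
* `idx_image`: `J' = A (J)` with `A` linear, `det A ≠ 0`, both of the above kind: then
  `idx J' = idx J * |det A|`: `J = T (Zl N)`, `J' = (A ∘ T)(Zl N)`, `idx_map` twice,
  `LinearMap.det_comp`.
-/

namespace Pool.Agent.MP_bb37eb_nt.ZB

open Set Filter MeasureTheory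

variable {N : ℕ}

private theorem idxa_cv_basis (k : Fin N → ℤ) :
    cv k = ∑ j, (k j : ℝ) • (Pi.basisFun ℝ (Fin N) j) := by
  funext i
  simp only [Finset.sum_apply, Pi.smul_apply, Pi.basisFun_apply, smul_eq_mul, Pi.single_apply, cv]
  simp

private theorem idxa_closure :
    Zl N = AddSubgroup.closure (Set.range (Pi.basisFun ℝ (Fin N))) := by
  apply le_antisymm
  · intro x hx
    obtain ⟨k, rfl⟩ := exists_cv hx
    rw [idxa_cv_basis]
    refine AddSubgroup.sum_mem _ fun j _ => ?_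
    rw [Int.cast_smul_eq_zsmul]
    exact AddSubgroup.zsmul_mem _ (AddSubgroup.subset_closure (Set.mem_range_self j)) _
  · rw [AddSubgroup.closure_le]
    rintro _ ⟨j, rfl⟩
    intro i
    by_cases h : i = j
    · subst h
      exact ⟨1, by simp⟩
    · exact ⟨0, by simp [h]⟩

theorem idx_map (T : E N →ₗ[ℝ] E N) (hT : ∀ x ∈ Zl N, T x ∈ Zl N) (hdet : LinearMap.det T ≠ 0) :
    (idx ((Zl N).map T.toAddMonoidHom) : ℝ) = |LinearMap.det T| := by
  classical
  have hle : (Zl N).map T.toAddMonoidHom ≤ Zl N := by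
    rintro _ ⟨x, hx, rfl⟩
    exact hT x hx
  set e : E N ≃ₗ[ℝ] E N := LinearEquiv.ofIsUnitDet (f := T) (v := Pi.basisFun ℝ (Fin N))
    (v' := Pi.basisFun ℝ (Fin N)) (by
      rw [LinearMap.det_toMatrix]
      exact isUnit_iff_ne_zero.2 hdet) with he
  have hev : ∀ x, e x = T x := fun x => rfl
  set b₂ : Module.Basis (Fin N) ℝ (E N) := Pi.basisFun ℝ (Fin N) with hb₂
  set b₁ : Module.Basis (Fin N) ℝ (E N) := b₂.map e with hb₁
  have h₂ : Zl N = AddSubgroup.closure (Set.range b₂) := idxa_closure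
  have h₁ : (Zl N).map T.toAddMonoidHom = AddSubgroup.closure (Set.range b₁) := by
    rw [h₂, AddMonoidHom.map_closure]
    congr 1
    ext x
    constructor
    · rintro ⟨_, ⟨j, rfl⟩, rfl⟩
      exact ⟨j, by rw [hb₁, Module.Basis.map_apply, hev]; rfl⟩
    · rintro ⟨j, rfl⟩
      exact ⟨b₂ j, ⟨j, rfl⟩, by rw [hb₁, Module.Basis.map_apply, hev]; rfl⟩
  have key := AddSubgroup.relIndex_eq_natAbs_det ((Zl N).map T.toAddMonoidHom) (Zl N) hle
    (b₁.addSubgroupOfClosure _ h₁) (b₂.addSubgroupOfClosure _ h₂)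
  unfold idx
  rw [key, Nat.cast_natAbs, Int.cast_abs]
  congr 1
  have hdd : LinearMap.det T = b₂.det b₁ := by
    have h3 : LinearMap.det T = b₂.det (T ∘ b₂) := by
      rw [Module.Basis.det_comp_basis]; rfl
    rw [h3]
    congr 1
  rw [hdd]
  change algebraMap ℤ ℝ _ = _
  rw [Module.Basis.det_apply, Module.Basis.det_apply, RingHom.map_det]
  congr 1
  ext i j
  simp [Module.Basis.toMatrix_apply]

theorem exists_map (J : AddSubgroup (E N)) (hJ : J ≤ Zl N) (q : ℕ) (hq : 0 < q)
    (h : ∀ x ∈ Zl N, (q : ℝ) • x ∈ J) :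
    ∃ T : E N →ₗ[ℝ] E N, LinearMap.det T ≠ 0 ∧ (Zl N).map T.toAddMonoidHom = J := by
  classical
  have hcv0 : cv (0 : Fin N → ℤ) = 0 := by
    funext i
    simp [cv]
  have hcva : ∀ a b : Fin N → ℤ, cv (a + b) = cv a + cv b := fun a b => by
    funext i
    simp [cv]
  have hcvz : ∀ (c : ℤ) (a : Fin N → ℤ), cv (c • a) = c • cv a := fun c a => by
    funext i
    simp [cv]
  let M : Submodule ℤ (Fin N → ℤ) :=
    { carrier := {k | cv k ∈ J}
      zero_mem' := by
        simp only [Set.mem_setOf_eq, hcv0]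
        exact J.zero_mem
      add_mem' := by
        intro a b ha hb
        simp only [Set.mem_setOf_eq] at ha hb ⊢
        rw [hcva]
        exact J.add_mem ha hb
      smul_mem' := by
        intro c a ha
        simp only [Set.mem_setOf_eq] at ha ⊢
        rw [hcvz]
        exact J.zsmul_mem ha c }
  have hM : ∀ k, k ∈ M ↔ cv k ∈ J := fun k => Iff.rfl
  have hqM : ∀ k : Fin N → ℤ, (q : ℤ) • k ∈ M := by
    intro k
    rw [hM, hcvz]
    have h1 := h (cv k) (cv_mem k)
    have h2 : ((q : ℤ) • cv k) = (q : ℝ) • cv k := by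
      funext i
      simp
    rw [h2]
    exact h1
  have hfin : Module.finrank ℤ M = N := by
    apply le_antisymm
    · have h1 := Submodule.finrank_le M
      simpa using h1
    · let f : (Fin N → ℤ) →ₗ[ℤ] M := LinearMap.codRestrict M
        ((q : ℤ) • (LinearMap.id : (Fin N → ℤ) →ₗ[ℤ] (Fin N → ℤ))) (fun k => hqM k)
      have hf : Function.Injective f := by
        intro a b hab
        have h1 : (q : ℤ) • a = (q : ℤ) • b := congrArg Subtype.val hab
        funext i
        have h2 := congrFun h1 i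
        simp only [Pi.smul_apply, smul_eq_mul] at h2
        exact mul_left_cancel₀ (by exact_mod_cast hq.ne') h2
      have h1 := LinearMap.finrank_le_finrank_of_injective hf
      simpa using h1
  let b : Module.Basis (Fin N) ℤ M := Module.finBasisOfFinrankEq ℤ M hfin
  let T : E N →ₗ[ℝ] E N := (Pi.basisFun ℝ (Fin N)).constr ℝ fun j => cv (b j : Fin N → ℤ)
  have hTcv : ∀ k : Fin N → ℤ, T (cv k) = cv (∑ j, k j • (b j : Fin N → ℤ)) := by
    intro k
    rw [idxa_cv_basis k, map_sum]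
    have h1 : ∀ j, T ((k j : ℝ) • (Pi.basisFun ℝ (Fin N) j)) = (k j : ℝ) • cv (b j : Fin N → ℤ) := by
      intro j
      rw [map_smul, Module.Basis.constr_basis]
    rw [Finset.sum_congr rfl fun j _ => h1 j]
    funext i
    simp only [Finset.sum_apply, Pi.smul_apply, cv, smul_eq_mul]
    push_cast
    rfl
  have hmap : (Zl N).map T.toAddMonoidHom = J := by
    ext x
    constructor
    · rintro ⟨y, hy, rfl⟩
      obtain ⟨k, rfl⟩ := exists_cv hy
      change T (cv k) ∈ J
      rw [hTcv, ← hM]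
      exact M.sum_mem fun j _ => M.smul_mem _ (b j).2
    · intro hx
      obtain ⟨k, rfl⟩ := exists_cv (hJ hx)
      have hk : k ∈ M := (hM k).2 hx
      refine ⟨cv (b.repr ⟨k, hk⟩), cv_mem _, ?_⟩
      change T (cv _) = _
      rw [hTcv]
      congr 1
      have h1 := b.sum_repr ⟨k, hk⟩
      have h2 : ((∑ j, b.repr ⟨k, hk⟩ j • b j : M) : Fin N → ℤ) = k := congrArg Subtype.val h1
      rw [Submodule.coe_sum] at h2
      exact h2
  refine ⟨T, ?_, hmap⟩
  have hrange : LinearMap.range T = ⊤ := by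
    rw [eq_top_iff, ← (Pi.basisFun ℝ (Fin N)).span_eq, Submodule.span_le]
    rintro _ ⟨j, rfl⟩
    have hj : (Pi.basisFun ℝ (Fin N) j) ∈ Zl N := by
      rw [idxa_closure]
      exact AddSubgroup.subset_closure ⟨j, rfl⟩
    have h1 := h _ hj
    rw [← hmap] at h1
    obtain ⟨y, _, hy⟩ := h1
    have hy' : T y = (q : ℝ) • (Pi.basisFun ℝ (Fin N) j) := hy
    refine ⟨(q : ℝ)⁻¹ • y, ?_⟩
    rw [map_smul, hy', smul_smul, inv_mul_cancel₀ (by exact_mod_cast hq.ne'), one_smul]
  have hu : IsUnit T := (LinearMap.isUnit_iff_range_eq_top T).2 hrange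
  exact ((LinearMap.isUnit_iff_isUnit_det T).1 hu).ne_zero

theorem idx_pos (J : AddSubgroup (E N)) (hJ : J ≤ Zl N) (q : ℕ) (hq : 0 < q)
    (h : ∀ x ∈ Zl N, (q : ℝ) • x ∈ J) : 0 < idx J := by
  obtain ⟨T, hT, hmap⟩ := exists_map J hJ q hq h
  have h1 := idx_map T (fun x hx => hJ (hmap ▸ ⟨x, hx, rfl⟩)) hT
  rw [hmap] at h1
  have h2 : (0 : ℝ) < idx J := by
    rw [h1]
    exact abs_pos.2 hT
  exact_mod_cast h2

theorem idx_image (J J' : AddSubgroup (E N)) (hJ : J ≤ Zl N) (q : ℕ) (hq : 0 < q)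
    (h : ∀ x ∈ Zl N, (q : ℝ) • x ∈ J) (A : E N →ₗ[ℝ] E N) (hA : LinearMap.det A ≠ 0)
    (hJ' : J' ≤ Zl N) (hmap : J.map A.toAddMonoidHom = J') :
    (idx J' : ℝ) = idx J * |LinearMap.det A| := by
  obtain ⟨T, hT, hT2⟩ := exists_map J hJ q hq h
  have h1 := idx_map T (fun x hx => hJ (hT2 ▸ ⟨x, hx, rfl⟩)) hT
  have hcomp : (Zl N).map (A ∘ₗ T).toAddMonoidHom = J' := by
    rw [← hmap, ← hT2, AddSubgroup.map_map]
    rfl
  have hdet : LinearMap.det (A ∘ₗ T) ≠ 0 := by
    rw [LinearMap.det_comp]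
    exact mul_ne_zero hA hT
  have h2 := idx_map (A ∘ₗ T) (fun x hx => hJ' (hcomp ▸ ⟨x, hx, rfl⟩)) hdet
  rw [hT2] at h1
  rw [hcomp, LinearMap.det_comp, abs_mul] at h2
  rw [h2, h1, mul_comm]

end Pool.Agent.MP_bb37eb_nt.ZB
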