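import Pool.Agent.Lib.MP_bb37eb_nt.ZB.Int
import Pool.Agent.Lib.MP_bb37eb_nt.ZB.IdxA

/-! Multiplication of lattices by elements, and the group `Gam I = {u | I u = I}`.

PROOFS. Let `I` be a left ideal of finite index, `q • Zl N ⊆ I ⊆ Zl N`.
* `rmul_mul`, `rmul_one`: associativity. `rmul_cancel`: if `x y = 1` then `(J x) y = J`.
* `gam_rat`: for `u ∈ Gam I`: `q • 1 ∈ I`, so `q • u = (q • 1) u ∈ I u = I ⊆ Zl N`.
* `gam_ne`: `R u` maps `I` onto `I`, and `I` spans `E N` over the reals (it contains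
  `q • Pi.single i 1`), so `O.R u` is surjective and its determinant is not `0`.
* `gam_nu`: `nu u = 1`: by `idx_image` with `J = J' = I`, `A = O.R u`:
  `idx I = idx I * nu u` and `idx I > 0` (`idx_pos`).
* `gam_mul`: `I (u v) = (I u) v`. `gam_inv`: by `exists_inv` there is `v` with `u v = v u = 1`, and
  `I v = (I u) v = I`.
* `idx_rmul`: for left ideals `J`, `J x` of finite index with `nu x ≠ 0`: `idx_image` with
  `A = O.R x`.
* `li_rmul`: if `J` is a left ideal of finite index, `x` is invertible, `J x ≤ Zl N`, then `J x` is a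
  left ideal of finite index: left stability by associativity; finite index: it suffices that
  `q' • Zl N ⊆ J x`. Let `y` be the inverse of `x`. `q • x = (q • 1) x ∈ J x ⊆ Zl N`, so by `inv_int`
  applied to `X = q • x` there are an integer vector `Y'` and `k = nu X ≥ 1` a natural number with
  `Y' X = k • 1`. For an integer vector `w` the product `w Y'` is an integer vector, so
  `q • (w Y') ∈ J`, and `(q • (w Y')) x = (w Y') X = w (Y' X) = k • w`. So `q' = k` works.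
-/

namespace Pool.Agent.MP_bb37eb_nt.ZB

open Set Filter MeasureTheory

variable {N : ℕ} (O : DivOrder N)

theorem rmul_mul (J : AddSubgroup (E N)) (x y : E N) :
    O.rmul J (O.mul x y) = O.rmul (O.rmul J x) y := by
  ext z
  rw [DivOrder.mem_rmul, DivOrder.mem_rmul]
  constructor
  · rintro ⟨v, hv, rfl⟩
    exact ⟨O.mul v x, O.mem_rmul.2 ⟨v, hv, rfl⟩, O.assoc v x y⟩
  · rintro ⟨w, hw, rfl⟩
    obtain ⟨v, hv, rfl⟩ := O.mem_rmul.1 hw
    exact ⟨v, hv, (O.assoc v x y).symm⟩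

theorem rmul_one (J : AddSubgroup (E N)) : O.rmul J O.one = J := by
  ext z
  rw [DivOrder.mem_rmul]
  constructor
  · rintro ⟨v, hv, rfl⟩
    rw [O.mul_one]
    exact hv
  · intro hz
    exact ⟨z, hz, O.mul_one z⟩

theorem rmul_cancel (J : AddSubgroup (E N)) (x y : E N) (h : O.mul x y = O.one) :
    O.rmul (O.rmul J x) y = J := by
  rw [← rmul_mul, h, rmul_one]

theorem gam_rat (I : AddSubgroup (E N)) (hI : O.LI I) :
    ∃ q : ℕ, 0 < q ∧ ∀ u ∈ O.Gam I, (q : ℝ) • u ∈ Zl N := by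
  obtain ⟨q, hq, hqI⟩ := hI.fin
  refine ⟨q, hq, fun u hu => ?_⟩
  have h1 : (q : ℝ) • O.one ∈ I := hqI _ O.int_one
  have h2 : (q : ℝ) • u ∈ O.rmul I u := by
    refine O.mem_rmul.2 ⟨(q : ℝ) • O.one, h1, ?_⟩
    rw [map_smul, LinearMap.smul_apply, O.one_mul]
  have h3 : O.rmul I u = I := hu
  rw [h3] at h2
  exact hI.le h2

theorem gama_single_mem (i : Fin N) : (Pi.single i (1 : ℝ) : E N) ∈ Zl N := by
  intro j
  by_cases h : j = i
  · subst h
    exact ⟨1, by simp⟩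
  · exact ⟨0, by simp [Pi.single_eq_of_ne h]⟩

/-- a linear map whose range contains a positive multiple of the lattice has nonzero
determinant -/
theorem gama_det_ne (T : E N →ₗ[ℝ] E N) (q : ℕ) (hq : 0 < q)
    (h : ∀ x ∈ Zl N, ∃ v, T v = (q : ℝ) • x) : LinearMap.det T ≠ 0 := by
  have hq' : (q : ℝ) ≠ 0 := Nat.cast_ne_zero.2 hq.ne'
  have hs : ∀ i : Fin N, (Pi.single i (1 : ℝ) : E N) ∈ LinearMap.range T := by
    intro i
    obtain ⟨v, hv⟩ := h _ (gama_single_mem i)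
    refine ⟨(q : ℝ)⁻¹ • v, ?_⟩
    rw [map_smul, hv, smul_smul, inv_mul_cancel₀ hq', one_smul]
  have htop : LinearMap.range T = ⊤ := by
    rw [eq_top_iff]
    intro x _
    have hx : x = ∑ i, x i • (Pi.single i (1 : ℝ) : E N) := by
      ext j
      rw [Finset.sum_apply]
      simp [Pi.single_apply]
    rw [hx]
    exact Submodule.sum_mem _ fun i _ => Submodule.smul_mem _ _ (hs i)
  have hsurj : Function.Surjective T := LinearMap.range_eq_top.1 htop
  have hinj : Function.Injective T := LinearMap.injective_iff_surjective.2 hsurj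
  have hu : IsUnit T := (Module.End.isUnit_iff T).2 ⟨hinj, hsurj⟩
  have hd : IsUnit (LinearMap.det T) := (LinearMap.isUnit_iff_isUnit_det T).1 hu
  exact hd.ne_zero

theorem gam_ne (I : AddSubgroup (E N)) (hI : O.LI I) (u : E N) (hu : u ∈ O.Gam I) :
    O.nu u ≠ 0 := by
  obtain ⟨q, hq, hqI⟩ := hI.fin
  have h3 : O.rmul I u = I := hu
  have h4 : LinearMap.det (O.R u) ≠ 0 := by
    refine gama_det_ne (O.R u) q hq fun x hx => ?_
    have h5 : (q : ℝ) • x ∈ O.rmul I u := by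
      rw [h3]
      exact hqI x hx
    obtain ⟨v, _, hv⟩ := O.mem_rmul.1 h5
    exact ⟨v, hv⟩
  exact abs_ne_zero.2 h4

theorem idx_li_pos (J : AddSubgroup (E N)) (hJ : O.LI J) : 0 < idx J := by
  obtain ⟨q, hq, hqJ⟩ := hJ.fin
  exact idx_pos J hJ.le q hq hqJ

theorem idx_rmul (J : AddSubgroup (E N)) (hJ : O.LI J) (x : E N) (hx : O.nu x ≠ 0)
    (h : O.rmul J x ≤ Zl N) : (idx (O.rmul J x) : ℝ) = idx J * O.nu x := by
  obtain ⟨q, hq, hqJ⟩ := hJ.fin
  have hd : LinearMap.det (O.R x) ≠ 0 := by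
    intro h0
    apply hx
    rw [DivOrder.nu, h0, abs_zero]
  exact idx_image J (O.rmul J x) hJ.le q hq hqJ (O.R x) hd h rfl

theorem gam_nu (I : AddSubgroup (E N)) (hI : O.LI I) (u : E N) (hu : u ∈ O.Gam I) :
    O.nu u = 1 := by
  have h3 : O.rmul I u = I := hu
  have h4 : O.rmul I u ≤ Zl N := by
    rw [h3]
    exact hI.le
  have h5 := idx_rmul O I hI u (gam_ne O I hI u hu) h4
  rw [h3] at h5
  have h6 : (idx I : ℝ) ≠ 0 := Nat.cast_ne_zero.2 (idx_li_pos O I hI).ne'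
  exact (mul_left_cancel₀ h6 (by rw [_root_.mul_one]; exact h5)).symm

theorem gam_one (I : AddSubgroup (E N)) : O.one ∈ O.Gam I := rmul_one O I

theorem gam_mul (I : AddSubgroup (E N)) (u v : E N) (hu : u ∈ O.Gam I) (hv : v ∈ O.Gam I) :
    O.mul u v ∈ O.Gam I := by
  have h1 : O.rmul I u = I := hu
  have h2 : O.rmul I v = I := hv
  show O.rmul I (O.mul u v) = I
  rw [rmul_mul, h1, h2]

theorem gam_inv (I : AddSubgroup (E N)) (hI : O.LI I) (u : E N) (hu : u ∈ O.Gam I) :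
    ∃ v ∈ O.Gam I, O.mul u v = O.one ∧ O.mul v u = O.one := by
  obtain ⟨v, h1, h2, _, _⟩ := exists_inv O u (gam_ne O I hI u hu)
  refine ⟨v, ?_, h1, h2⟩
  have h3 : O.rmul I u = I := hu
  have h4 := rmul_cancel O I u v h1
  rw [h3] at h4
  exact h4

theorem li_rmul (J : AddSubgroup (E N)) (hJ : O.LI J) (x : E N) (hx : O.nu x ≠ 0)
    (h : O.rmul J x ≤ Zl N) : O.LI (O.rmul J x) := by
  refine ⟨h, ?_, ?_⟩
  · intro a ha z hz
    obtain ⟨v, hv, rfl⟩ := O.mem_rmul.1 hz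
    exact O.mem_rmul.2 ⟨O.mul a v, hJ.left a ha v hv, O.assoc a v x⟩
  · obtain ⟨q, hq, hqJ⟩ := hJ.fin
    have hq' : (q : ℝ) ≠ 0 := Nat.cast_ne_zero.2 hq.ne'
    have h1 : (q : ℝ) • x ∈ Zl N := by
      apply h
      refine O.mem_rmul.2 ⟨(q : ℝ) • O.one, hqJ _ O.int_one, ?_⟩
      rw [map_smul, LinearMap.smul_apply, O.one_mul]
    have h0 : (q : ℝ) • x ≠ 0 := by
      intro h0
      apply hx
      have : x = 0 := (smul_eq_zero.1 h0).resolve_left hq'
      rw [this, nu_zero]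
    obtain ⟨y, hy, hy1, _⟩ := inv_int O _ h1 h0
    obtain ⟨k, hk⟩ := nu_int O _ h1
    have hk1 : 1 ≤ O.nu ((q : ℝ) • x) := one_le_nu O _ h1 h0
    have hk0 : 0 < k := by
      rw [hk] at hk1
      have : (1 : ℝ) ≤ k := hk1
      exact_mod_cast (lt_of_lt_of_le zero_lt_one this)
    refine ⟨k, hk0, fun w hw => ?_⟩
    refine O.mem_rmul.2 ⟨(q : ℝ) • O.mul w y, hqJ _ (O.int_mul w hw y hy), ?_⟩
    have e1 : O.mul ((q : ℝ) • O.mul w y) x = O.mul (O.mul w y) ((q : ℝ) • x) := by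
      rw [map_smul, LinearMap.smul_apply, map_smul]
    rw [e1, O.assoc, hy1, hk, map_smul, O.mul_one]

end Pool.Agent.MP_bb37eb_nt.ZB
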