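import Pool.Agent.Lib.MP_bb37eb_nt.ZB.GamA

/-! Properties of the lattice `L I = {x | I x ⊆ Zl N}` and of the classes.

PROOFS. `I` a left ideal of finite index, `q • Zl N ⊆ I`.
* `L_ge`: for integer `x` and `v ∈ I ⊆ Zl N`, `v x` is an integer vector.
* `L_le`: `q • 1 ∈ I`, so `q • x = (q • 1) x ∈ Zl N` for `x ∈ L I`.
* `L_ne`: nonzero elements of `L I` are invertible (`nu_ne_of_rat`).
* `L_iff`: `x ∈ L I ↔ O.rmul I x ≤ Zl N`.
* `li_L`: for `x ∈ L I`, `x ≠ 0`, the group `I x` is a left ideal of finite index (`li_rmul`).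
* `L_smul_gam`: `u ∈ Gam I`, `x ∈ L I` imply `u x ∈ L I` (as `I (u x) = (I u) x = I x`).
* `rel_of_L`, `exists_L`: the left ideals of finite index in the class of `I` are exactly the `I x`,
  `x ∈ L I` nonzero: if `O.Rel I J` with `J = I x`, `J ≤ Zl N`, then `x ∈ L I` by `L_iff` and
  `x ≠ 0` because `nu x ≠ 0` (`nu_zero`).
* `same_orbit`: if `x, y` are invertible and `I x = I y` then `x = u y` for some `u ∈ Gam I`: let
  `y'` be the inverse of `y` and `u = x y'`; `I u = (I x) y' = (I y) y' = I` and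
  `u y = x (y' y) = x`.
-/

namespace Pool.Agent.MP_bb37eb_nt.ZB

open Set Filter MeasureTheory

variable {N : ℕ} (O : DivOrder N)

theorem L_ge (I : AddSubgroup (E N)) (hI : O.LI I) : Zl N ≤ O.L I := by
  intro x hx v hv
  exact O.int_mul v (hI.le hv) x hx

theorem L_le (I : AddSubgroup (E N)) (hI : O.LI I) :
    ∃ q : ℕ, 0 < q ∧ ∀ x ∈ O.L I, (q : ℝ) • x ∈ Zl N := by
  obtain ⟨q, hq, hqI⟩ := hI.fin
  refine ⟨q, hq, fun x hx => ?_⟩
  have h1 := hx _ (hqI _ O.int_one)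
  rwa [map_smul, LinearMap.smul_apply, O.one_mul] at h1

theorem L_ne (I : AddSubgroup (E N)) (hI : O.LI I) (x : E N) (hx : x ∈ O.L I) (h0 : x ≠ 0) :
    O.nu x ≠ 0 := by
  obtain ⟨q, hq, hqL⟩ := L_le O I hI
  exact nu_ne_of_rat O x h0 q hq (hqL x hx)

theorem L_iff (I : AddSubgroup (E N)) (x : E N) : x ∈ O.L I ↔ O.rmul I x ≤ Zl N := by
  constructor
  · intro hx z hz
    obtain ⟨v, hv, rfl⟩ := O.mem_rmul.1 hz
    exact hx v hv
  · intro h v hv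
    exact h (O.mem_rmul.2 ⟨v, hv, rfl⟩)

theorem li_L (I : AddSubgroup (E N)) (hI : O.LI I) (x : E N) (hx : x ∈ O.L I) (h0 : x ≠ 0) :
    O.LI (O.rmul I x) :=
  li_rmul O I hI x (L_ne O I hI x hx h0) ((L_iff O I x).1 hx)

theorem L_smul_gam (I : AddSubgroup (E N)) (u x : E N) (hu : u ∈ O.Gam I) (hx : x ∈ O.L I) :
    O.mul u x ∈ O.L I := by
  have h3 : O.rmul I u = I := hu
  rw [L_iff, rmul_mul, h3]
  exact (L_iff O I x).1 hx

theorem rel_of_L (I : AddSubgroup (E N)) (hI : O.LI I) (x : E N) (hx : x ∈ O.L I)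
    (h0 : x ≠ 0) : O.Rel I (O.rmul I x) :=
  ⟨x, L_ne O I hI x hx h0, rfl⟩

theorem exists_L (I J : AddSubgroup (E N)) (hJ : O.LI J) (h : O.Rel I J) :
    ∃ x ∈ O.L I, x ≠ 0 ∧ O.nu x ≠ 0 ∧ O.rmul I x = J := by
  obtain ⟨x, hx, hxJ⟩ := h
  refine ⟨x, ?_, ?_, hx, hxJ⟩
  · rw [L_iff, hxJ]
    exact hJ.le
  · rintro rfl
    exact hx (nu_zero O)

theorem same_orbit (I : AddSubgroup (E N)) (x y : E N) (hx : O.nu x ≠ 0)
    (hy : O.nu y ≠ 0) (h : O.rmul I x = O.rmul I y) : ∃ u ∈ O.Gam I, x = O.mul u y := by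
  obtain ⟨y', h1, h2, _, _⟩ := exists_inv O y hy
  refine ⟨O.mul x y', ?_, ?_⟩
  · show O.rmul I (O.mul x y') = I
    rw [rmul_mul, h, rmul_cancel O I y y' h1]
  · rw [O.assoc, h2, O.mul_one]

theorem mul_ne_zero' (u x : E N) (hu : O.nu u ≠ 0) (hx : x ≠ 0) : O.mul u x ≠ 0 := by
  intro h
  obtain ⟨u', _, h2, _, _⟩ := exists_inv O u hu
  apply hx
  rw [← O.one_mul x, ← h2, O.assoc, h, map_zero]

end Pool.Agent.MP_bb37eb_nt.ZB
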