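import Pool.Agent.Lib.MP_bb37eb_nt.ZB.NuB

/-! Integrality.

PROOFS. Let `x` be an integer vector. The matrix `A = LinearMap.toMatrix' (O.R x)` has integer
entries: its entry `(i, j)` is the `i`-th coordinate of `O.mul e_j x`, where `e_j = Pi.single j 1`
is an integer vector (`O.int_mul`). So `A = B.map (Int.cast)` for an integer matrix `B` (choose),
`det A = (det B : ℝ)` (`Matrix.map_det` / `Int.cast_det`), `nu x = |det B| = (det B).natAbs`.
* `nu_int`: this.
* `one_le_nu`: for `x ≠ 0`, `nu x ≠ 0` (`nu_ne_of_rat` with `q = 1`) and `nu x` is a natural number.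
* `cramer_int`: `B * adjugate B = det B • 1`, so for every integer vector `w` the vector
  `y = (adjugate B) w` is an integer vector with `B y = det B • w`, i.e. `O.mul y x = det B • w`;
  change the sign of `y` if `det B < 0`. With `w = O.one` one gets `y x = k • 1`, `k = nu x`.
* `inv_int`: for `x ≠ 0`, `k = nu x`, `y` from `cramer_int`; `y x = k • 1` and then also
  `x y = k • 1` (let `z` be the inverse of `x`, `y = y (x z) = (y x) z = k • z`, so `x y = k • 1`).
-/

namespace Pool.Agent.MP_bb37eb_nt.ZB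

open Set Filter MeasureTheory

variable {N : ℕ} (O : DivOrder N)

theorem int_single_mem (j : Fin N) : (Pi.single j 1 : E N) ∈ Zl N := by
  intro i
  by_cases h : i = j
  · subst h
    exact ⟨1, by simp⟩
  · exact ⟨0, by simp [h]⟩

theorem int_matrix (x : E N) (hx : x ∈ Zl N) : ∃ B : Matrix (Fin N) (Fin N) ℤ,
    ∀ i j, LinearMap.toMatrix' (O.R x) i j = ((B i j : ℤ) : ℝ) := by
  have h : ∀ i j, ∃ k : ℤ, LinearMap.toMatrix' (O.R x) i j = (k : ℝ) := by
    intro i j
    have h1 : LinearMap.toMatrix' (O.R x) i j = O.mul (Pi.single j 1) x i := by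
      rw [LinearMap.toMatrix'_apply, DivOrder.R_apply]
    rw [h1]
    exact O.int_mul _ (int_single_mem j) _ hx i
  choose B hB using h
  exact ⟨B, hB⟩

theorem int_det (x : E N) (B : Matrix (Fin N) (Fin N) ℤ)
    (hB : ∀ i j, LinearMap.toMatrix' (O.R x) i j = ((B i j : ℤ) : ℝ)) :
    LinearMap.det (O.R x) = ((B.det : ℤ) : ℝ) := by
  rw [← LinearMap.det_toMatrix']
  have h1 : LinearMap.toMatrix' (O.R x) = (Int.castRingHom ℝ).mapMatrix B := by
    ext i j
    rw [hB]
    rfl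
  rw [h1, ← RingHom.map_det]
  rfl

theorem int_mulVec (x : E N) (B : Matrix (Fin N) (Fin N) ℤ)
    (hB : ∀ i j, LinearMap.toMatrix' (O.R x) i j = ((B i j : ℤ) : ℝ)) (y : Fin N → ℤ) :
    O.mul (cv y) x = cv (B.mulVec y) := by
  have h1 : O.mul (cv y) x = (LinearMap.toMatrix' (O.R x)).mulVec (cv y) := by
    rw [LinearMap.toMatrix'_mulVec]
    rfl
  rw [h1]
  funext i
  simp only [Matrix.mulVec, dotProduct, cv, hB]
  push_cast
  rfl

theorem nu_int (x : E N) (hx : x ∈ Zl N) : ∃ k : ℕ, O.nu x = k := by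
  obtain ⟨B, hB⟩ := int_matrix O x hx
  refine ⟨B.det.natAbs, ?_⟩
  rw [DivOrder.nu, int_det O x B hB, Nat.cast_natAbs, Int.cast_abs]

theorem one_le_nu (x : E N) (hx : x ∈ Zl N) (h0 : x ≠ 0) : 1 ≤ O.nu x := by
  obtain ⟨k, hk⟩ := nu_int O x hx
  have h1 : O.nu x ≠ 0 := by
    refine nu_ne_of_rat O x h0 1 one_pos ?_
    rw [Nat.cast_one, one_smul]
    exact hx
  rw [hk] at h1 ⊢
  have h2 : k ≠ 0 := by
    rintro rfl
    exact h1 Nat.cast_zero
  exact_mod_cast Nat.one_le_iff_ne_zero.2 h2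

theorem cramer_int (x : E N) (hx : x ∈ Zl N) (w : E N) (hw : w ∈ Zl N) :
    ∃ y ∈ Zl N, O.mul y x = O.nu x • w := by
  obtain ⟨B, hB⟩ := int_matrix O x hx
  obtain ⟨w', rfl⟩ := exists_cv hw
  have h1 : O.mul (cv (B.adjugate.mulVec w')) x = ((B.det : ℤ) : ℝ) • cv w' := by
    rw [int_mulVec O x B hB, Matrix.mulVec_mulVec, Matrix.mul_adjugate, Matrix.smul_mulVec,
      Matrix.one_mulVec]
    funext i
    simp [cv]
  have h2 : O.nu x = |((B.det : ℤ) : ℝ)| := by
    rw [DivOrder.nu, int_det O x B hB]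
  rcases le_total 0 ((B.det : ℤ) : ℝ) with h | h
  · refine ⟨cv (B.adjugate.mulVec w'), cv_mem _, ?_⟩
    rw [h1, h2, abs_of_nonneg h]
  · refine ⟨-cv (B.adjugate.mulVec w'), (Zl N).neg_mem (cv_mem _), ?_⟩
    rw [map_neg, LinearMap.neg_apply, h1, h2, abs_of_nonpos h, neg_smul]

theorem inv_int (x : E N) (hx : x ∈ Zl N) (h0 : x ≠ 0) :
    ∃ y ∈ Zl N, O.mul y x = O.nu x • O.one ∧ O.mul x y = O.nu x • O.one := by
  obtain ⟨y, hy, h1⟩ := cramer_int O x hx O.one O.int_one
  refine ⟨y, hy, h1, ?_⟩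
  have h2 : O.nu x ≠ 0 := by
    have := one_le_nu O x hx h0
    intro h
    rw [h] at this
    exact absurd this (by norm_num)
  obtain ⟨z, hz1, hz2, _, _⟩ := exists_inv O x h2
  have h3 : y = O.nu x • z := by
    calc y = O.mul y O.one := (O.mul_one y).symm
      _ = O.mul y (O.mul x z) := by rw [hz1]
      _ = O.mul (O.mul y x) z := (O.assoc y x z).symm
      _ = O.nu x • z := by rw [h1, map_smul, LinearMap.smul_apply, O.one_mul]
  rw [h3, map_smul, hz1]

end Pool.Agent.MP_bb37eb_nt.ZB
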