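import Pool.Agent.Lib.MP_bb37eb_nt.ZB.Core

/-! Finiteness and crude bounds for the lattice sum `P ψ h t = ∑' k, ψ (h • (cv k + t))`. -/

namespace Pool.Agent.MP_bb37eb_nt.ZB

open Set Filter MeasureTheory

variable {N : ℕ}

theorem lata_radius (ψ : E N → ℝ) (hc : HasCompactSupport ψ) :
    ∃ R : ℝ, 0 ≤ R ∧ ∀ x, ψ x ≠ 0 → ‖x‖ ≤ R := by
  obtain ⟨R, hR⟩ := hc.isCompact.isBounded.subset_closedBall (0 : E N)
  refine ⟨max R 0, le_max_right _ _, ?_⟩
  intro x hx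
  have h1 : x ∈ tsupport ψ := subset_tsupport ψ hx
  have h2 := hR h1
  rw [mem_closedBall_zero_iff] at h2
  exact h2.trans (le_max_left _ _)

theorem lata_coord {ψ : E N → ℝ} {R : ℝ} (hR : ∀ x, ψ x ≠ 0 → ‖x‖ ≤ R) {h : ℝ} (hh : 0 < h)
    {t : E N} {k : Fin N → ℤ} (hk : ψ (h • (cv k + t)) ≠ 0) (i : Fin N) :
    |(k i : ℝ) + t i| ≤ R / h := by
  have h1 := hR _ hk
  have h2 : ‖(h • (cv k + t)) i‖ ≤ R := (norm_le_pi_norm _ i).trans h1
  have h3 : (h • (cv k + t)) i = h * ((k i : ℝ) + t i) := rfl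
  rw [h3, Real.norm_eq_abs, abs_mul, abs_of_pos hh] at h2
  rw [le_div_iff₀ hh]
  linarith

theorem lat_card (ψ : E N → ℝ) (hc : HasCompactSupport ψ) :
    ∃ R : ℝ, 0 ≤ R ∧ ∀ h : ℝ, 0 < h → ∀ t : E N, ∃ F : Finset (Fin N → ℤ),
      (∀ k, k ∉ F → ψ (h • (cv k + t)) = 0) ∧ (F.card : ℝ) ≤ (2 * R / h + 1) ^ N := by
  obtain ⟨R, hR0, hR⟩ := lata_radius ψ hc
  refine ⟨R, hR0, ?_⟩
  intro h hh t
  have hRh : 0 ≤ R / h := by positivity
  refine ⟨Fintype.piFinset fun i => Finset.Icc ⌈-t i - R / h⌉ ⌊-t i + R / h⌋, ?_, ?_⟩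
  · intro k hk
    by_contra hne
    apply hk
    rw [Fintype.mem_piFinset]
    intro i
    have h1 := abs_le.1 (lata_coord hR hh hne i)
    rw [Finset.mem_Icc]
    constructor
    · rw [Int.ceil_le]
      linarith [h1.1]
    · rw [Int.le_floor]
      linarith [h1.2]
  · rw [Fintype.card_piFinset]
    push_cast
    have h2 : ∀ i ∈ (Finset.univ : Finset (Fin N)),
        ((Finset.Icc ⌈-t i - R / h⌉ ⌊-t i + R / h⌋).card : ℝ) ≤ 2 * R / h + 1 := by
      intro i _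
      rw [Int.card_Icc]
      have h3 : (((⌊-t i + R / h⌋ + 1 - ⌈-t i - R / h⌉).toNat : ℕ) : ℝ) =
          ((max (⌊-t i + R / h⌋ + 1 - ⌈-t i - R / h⌉) 0 : ℤ) : ℝ) := by
        rw [← Int.toNat_eq_max]
        norm_cast
      rw [h3]
      have h4 := Int.floor_le (-t i + R / h)
      have h5 := Int.le_ceil (-t i - R / h)
      have h6 : 2 * R / h = R / h + R / h := by ring
      rw [h6]
      push_cast
      apply max_le
      · linarith
      · linarith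
    calc _ ≤ ∏ _i : Fin N, (2 * R / h + 1) :=
          Finset.prod_le_prod (fun i _ => by positivity) h2
      _ = (2 * R / h + 1) ^ N := by simp

theorem lat_bound (ψ : E N → ℝ) (hψ : Continuous ψ) (hc : HasCompactSupport ψ) :
    ∃ C : ℝ, 0 ≤ C ∧ ∀ h : ℝ, 0 < h → h ≤ 1 → ∀ t : E N, |P ψ h t| ≤ C / h ^ N := by
  obtain ⟨R, hR0, hR⟩ := lat_card ψ hc
  obtain ⟨S, hS⟩ := hc.exists_bound_of_continuous hψ
  have hS0 : 0 ≤ S := (norm_nonneg _).trans (hS 0)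
  refine ⟨S * (2 * R + 1) ^ N, by positivity, ?_⟩
  intro h hh h1 t
  obtain ⟨F, hF, hFc⟩ := hR h hh t
  have e : P ψ h t = ∑ k ∈ F, ψ (h • (cv k + t)) := tsum_eq_sum hF
  rw [e]
  calc |∑ k ∈ F, ψ (h • (cv k + t))| ≤ ∑ k ∈ F, |ψ (h • (cv k + t))| :=
        Finset.abs_sum_le_sum_abs _ _
    _ ≤ ∑ _k ∈ F, S := Finset.sum_le_sum fun k _ => hS _
    _ = F.card * S := by rw [Finset.sum_const, nsmul_eq_mul]
    _ ≤ (2 * R / h + 1) ^ N * S := by gcongr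
    _ ≤ ((2 * R + 1) / h) ^ N * S := by
        have h2 : 2 * R / h + 1 ≤ (2 * R + 1) / h := by
          rw [add_div]
          have : 1 ≤ 1 / h := by
            rw [le_div_iff₀ hh]
            linarith
          linarith
        gcongr
    _ = S * (2 * R + 1) ^ N / h ^ N := by
        rw [div_pow]
        ring

theorem lat_unif (ψ : E N → ℝ) (hc : HasCompactSupport ψ) (h : ℝ) (hh : 0 < h) (ρ : ℝ) :
    ∃ F : Finset (Fin N → ℤ), ∀ t : E N, ‖t‖ ≤ ρ → ∀ k, k ∉ F → ψ (h • (cv k + t)) = 0 := by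
  obtain ⟨R, hR0, hR⟩ := lata_radius ψ hc
  refine ⟨Fintype.piFinset fun _ => Finset.Icc ⌈-ρ - R / h⌉ ⌊ρ + R / h⌋, ?_⟩
  intro t ht k hk
  by_contra hne
  apply hk
  rw [Fintype.mem_piFinset]
  intro i
  have h1 := abs_le.1 (lata_coord hR hh hne i)
  have h2 : |t i| ≤ ρ := (norm_le_pi_norm t i).trans ht
  have h3 := abs_le.1 h2
  rw [Finset.mem_Icc]
  constructor
  · rw [Int.ceil_le]
    linarith [h1.1, h3.2]
  · rw [Int.le_floor]
    linarith [h1.2, h3.1]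

theorem lat_cont (ψ : E N → ℝ) (hψ : Continuous ψ) (hc : HasCompactSupport ψ) (h : ℝ)
    (hh : 0 < h) : Continuous (P ψ h) := by
  rw [continuous_iff_continuousAt]
  intro t₀
  obtain ⟨F, hF⟩ := lat_unif ψ hc h hh (‖t₀‖ + 1)
  have h1 : Continuous fun t : E N => ∑ k ∈ F, ψ (h • (cv k + t)) :=
    continuous_finsetSum _ fun k _ => hψ.comp (by fun_prop)
  refine h1.continuousAt.congr ?_
  have h2 : ∀ᶠ t : E N in nhds t₀, ‖t‖ < ‖t₀‖ + 1 :=
    continuous_norm.continuousAt.eventually_lt continuousAt_const (by linarith)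
  filter_upwards [h2] with t ht
  exact (tsum_eq_sum (hF t ht.le)).symm

end Pool.Agent.MP_bb37eb_nt.ZB
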