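import Pool.Agent.Lib.MP_bb37eb_nt.ZB.LatA

/-! Mean value inequality for the lattice sum.

NOTATION. `dd j ψ x = fderiv ℝ ψ x (Pi.single j 1)`, the partial derivative.

PROOFS.
* `dd_smooth`: `ContDiff.fderiv_right` / `ContDiff.clm_apply` with `m + 1 ≤ ∞`.
* `dd_compact`: `HasCompactSupport.fderiv` and composition with evaluation (zero outside).
* `lat_mvt`: let `Q θ = P ψ h (s + θ • (t - s))` for `θ ∈ [0,1]`. By `lat_unif`
  (`ρ = ‖s‖ + ‖t - s‖`), applied to `ψ` and to the finitely many `dd j ψ`, all the sums are sums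
  over one finite set `F` of `k`. So `Q` is differentiable with
  `Q' θ = ∑_{k ∈ F} fderiv ℝ ψ (h • (cv k + s + θ • (t - s))) (h • (t - s))
        = h * ∑_j (t j - s j) * ∑_{k ∈ F} dd j ψ (h • (..)) = h * ∑_j (t j - s j) * P (dd j ψ) h (..)`
  (expand `t - s = ∑_j (t j - s j) • Pi.single j 1`, linearity of `fderiv`). Since
  `|t j - s j| ≤ ‖t - s‖ ≤ 1`, `|Q' θ| ≤ h * ∑_j C j`, and the mean value theorem
  (`Convex.norm_image_sub_le_of_norm_hasDerivWithin_le` on `Icc 0 1`, or on the whole line)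
  gives the claim.
-/

namespace Pool.Agent.MP_bb37eb_nt.ZB

open Set Filter MeasureTheory

variable {N : ℕ}

/-- partial derivative -/
noncomputable def dd (j : Fin N) (ψ : E N → ℝ) (x : E N) : ℝ := fderiv ℝ ψ x (Pi.single j 1)

theorem dd_smooth (j : Fin N) (ψ : E N → ℝ) (hψ : ContDiff ℝ (⊤ : ℕ∞) ψ) :
    ContDiff ℝ (⊤ : ℕ∞) (dd j ψ) := by
  have h1 : ContDiff ℝ (⊤ : ℕ∞) (fun x => fderiv ℝ ψ x) :=
    hψ.fderiv_right (m := (⊤ : ℕ∞)) (by simp)
  exact h1.clm_apply contDiff_const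

theorem dd_compact (j : Fin N) (ψ : E N → ℝ) (hc : HasCompactSupport ψ) :
    HasCompactSupport (dd j ψ) := by
  have h1 : HasCompactSupport (fderiv ℝ ψ) := hc.fderiv (𝕜 := ℝ)
  exact h1.comp_left (g := fun L : E N →L[ℝ] ℝ => L (Pi.single j 1)) (by simp)

theorem latb_expand (ψ : E N → ℝ) (x v : E N) :
    fderiv ℝ ψ x v = ∑ j, v j * dd j ψ x := by
  have hv : v = ∑ j, v j • (Pi.single j (1 : ℝ) : E N) := by
    funext i
    simp [Finset.sum_apply, Pi.single_apply]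
  conv_lhs => rw [hv]
  rw [map_sum]
  refine Finset.sum_congr rfl fun j _ => ?_
  rw [map_smul]
  simp [dd]

theorem lat_mvt (ψ : E N → ℝ) (hψ : ContDiff ℝ (⊤ : ℕ∞) ψ) (hc : HasCompactSupport ψ) (h : ℝ)
    (hh : 0 < h) (C : Fin N → ℝ) (hC : ∀ j r, |P (dd j ψ) h r| ≤ C j) (s t : E N)
    (hst : ‖t - s‖ ≤ 1) : |P ψ h t - P ψ h s| ≤ h * ∑ j, C j := by
  classical
  obtain ⟨F0, hF0⟩ := lat_unif ψ hc h hh (‖s‖ + ‖t - s‖)
  have hex : ∀ j, ∃ F : Finset (Fin N → ℤ), ∀ r : E N, ‖r‖ ≤ ‖s‖ + ‖t - s‖ →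
      ∀ k, k ∉ F → dd j ψ (h • (cv k + r)) = 0 :=
    fun j => lat_unif (dd j ψ) (dd_compact j ψ hc) h hh (‖s‖ + ‖t - s‖)
  choose F1 hF1 using hex
  set F : Finset (Fin N → ℤ) := F0 ∪ Finset.univ.biUnion F1 with hF
  have hsub0 : ∀ k, k ∉ F → k ∉ F0 := fun k hk h0 => hk (Finset.mem_union_left _ h0)
  have hsub1 : ∀ j k, k ∉ F → k ∉ F1 j := fun j k hk h0 =>
    hk (Finset.mem_union_right _ (Finset.mem_biUnion.2 ⟨j, Finset.mem_univ _, h0⟩))
  have hP0 : ∀ r : E N, ‖r‖ ≤ ‖s‖ + ‖t - s‖ → P ψ h r = ∑ k ∈ F, ψ (h • (cv k + r)) :=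
    fun r hr => tsum_eq_sum fun k hk => hF0 r hr k (hsub0 k hk)
  have hP1 : ∀ j, ∀ r : E N, ‖r‖ ≤ ‖s‖ + ‖t - s‖ →
      P (dd j ψ) h r = ∑ k ∈ F, dd j ψ (h • (cv k + r)) :=
    fun j r hr => tsum_eq_sum fun k hk => hF1 j r hr k (hsub1 j k hk)
  -- norm bound on the segment
  have hseg : ∀ θ ∈ Icc (0 : ℝ) 1, ‖s + θ • (t - s)‖ ≤ ‖s‖ + ‖t - s‖ := by
    intro θ hθ
    refine (norm_add_le _ _).trans ?_
    have h1 : ‖θ • (t - s)‖ ≤ ‖t - s‖ := by
      rw [norm_smul, Real.norm_eq_abs, abs_of_nonneg hθ.1]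
      exact mul_le_of_le_one_left (norm_nonneg _) hθ.2
    linarith
  set Q : ℝ → ℝ := fun θ => ∑ k ∈ F, ψ (h • (cv k + (s + θ • (t - s)))) with hQ
  set Q' : ℝ → ℝ := fun θ =>
    ∑ k ∈ F, fderiv ℝ ψ (h • (cv k + (s + θ • (t - s)))) (h • (t - s)) with hQ'
  have hder : ∀ θ, HasDerivAt Q (Q' θ) θ := by
    intro θ
    refine HasDerivAt.fun_sum fun k _ => ?_
    have hd : HasDerivAt (fun θ : ℝ => h • (cv k + (s + θ • (t - s)))) (h • (t - s)) θ := by
      have h1 : HasDerivAt (fun θ : ℝ => θ • (t - s)) ((1 : ℝ) • (t - s)) θ :=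
        (hasDerivAt_id θ).smul_const (t - s)
      rw [one_smul] at h1
      exact ((h1.const_add s).const_add (cv k)).const_smul h
    have hf : HasFDerivAt ψ (fderiv ℝ ψ (h • (cv k + (s + θ • (t - s)))))
        (h • (cv k + (s + θ • (t - s)))) :=
      (hψ.differentiable (by simp)).differentiableAt.hasFDerivAt
    exact hf.comp_hasDerivAt θ hd
  have hQ'bd : ∀ θ ∈ Icc (0 : ℝ) 1, ‖Q' θ‖ ≤ h * ∑ j, C j := by
    intro θ hθ
    have e1 : Q' θ = h * ∑ j, (t - s) j * P (dd j ψ) h (s + θ • (t - s)) := by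
      simp only [hQ']
      rw [Finset.mul_sum]
      have : ∀ k ∈ F, fderiv ℝ ψ (h • (cv k + (s + θ • (t - s)))) (h • (t - s)) =
          ∑ j, h * ((t - s) j * dd j ψ (h • (cv k + (s + θ • (t - s))))) := by
        intro k _
        rw [latb_expand]
        refine Finset.sum_congr rfl fun j _ => ?_
        simp only [Pi.smul_apply, smul_eq_mul]
        ring
      rw [Finset.sum_congr rfl this, Finset.sum_comm]
      refine Finset.sum_congr rfl fun j _ => ?_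
      rw [hP1 j _ (hseg θ hθ), Finset.mul_sum, Finset.mul_sum]
    rw [e1, norm_mul, Real.norm_eq_abs, abs_of_pos hh]
    refine mul_le_mul_of_nonneg_left ?_ hh.le
    refine (norm_sum_le _ _).trans (Finset.sum_le_sum fun j _ => ?_)
    rw [norm_mul, Real.norm_eq_abs (P _ _ _)]
    have h1 : ‖(t - s) j‖ ≤ 1 := (norm_le_pi_norm (t - s) j).trans hst
    have h2 := hC j (s + θ • (t - s))
    calc ‖(t - s) j‖ * |P (dd j ψ) h (s + θ • (t - s))|
        ≤ 1 * C j := mul_le_mul h1 h2 (abs_nonneg _) zero_le_one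
      _ = C j := one_mul _
  have hmv := Convex.norm_image_sub_le_of_norm_hasDerivWithin_le (f := Q) (f' := Q')
    (C := h * ∑ j, C j) (s := Icc (0 : ℝ) 1) (x := 0) (y := 1)
    (fun θ _ => (hder θ).hasDerivWithinAt) hQ'bd (convex_Icc 0 1)
    (left_mem_Icc.2 zero_le_one) (right_mem_Icc.2 zero_le_one)
  have e0 : Q 0 = P ψ h s := by
    rw [hP0 s (by linarith [norm_nonneg (t - s)])]
    simp [hQ]
  have e1 : Q 1 = P ψ h t := by
    have ht : ‖t‖ ≤ ‖s‖ + ‖t - s‖ := by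
      calc ‖t‖ = ‖s + (t - s)‖ := by rw [add_sub_cancel]
        _ ≤ _ := norm_add_le _ _
    rw [hP0 t ht]
    simp only [hQ, one_smul, add_sub_cancel]
  rw [e0, e1, Real.norm_eq_abs] at hmv
  simpa using hmv

end Pool.Agent.MP_bb37eb_nt.ZB
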