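import Pool.Agent.Lib.MP_bb37eb_nt.ZB.LatB

/-! Integrals.

PROOFS.
* `lat_integral`: `∫ u in [0,1)^N, ∑' k, ψ (h • (cv k + t + u)) = ∫ x, ψ (h • (x + t))`
  `= h^(-N) ∫ ψ`. First equality: the cube `Set.pi univ (fun _ => Ico 0 1)` is a fundamental domain
  for the integer vectors (`ZSpan.isAddFundamentalDomain (Pi.basisFun ℝ (Fin N)) volume`, with
  `ZSpan.fundamentalDomain (Pi.basisFun ℝ (Fin N)) = Set.pi univ (fun _ => Ico 0 1)`,
  `ZSpan.fundamentalDomain_pi_basisFun`), `IsAddFundamentalDomain.integral_eq_tsum` and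
  `lat_unif` (on the cube the sum is a finite sum over one finite set, so it commutes with the
  integral); the lattice `span ℤ (range basisFun)` is identified with `Fin N → ℤ` by `cv`. An
  alternative is to use that the sets `cv k + cube` are pairwise disjoint with union everything
  (`Int.floor`) and `MeasureTheory.integral_iUnion`. Second equality: `integral_add_right_eq_self`,
  `MeasureTheory.Measure.integral_comp_smul`, `finrank = N`.
* `int_dd`: the integral of a partial derivative of a smooth compactly supported function vanishes: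
  integration by parts against the constant function, e.g.
  `integral_bilinear_hasLineDerivAt_right_eq_neg_left_of_integrable`,
  `integral_mul_fderiv_eq_neg_fderiv_mul_of_integrable`, or differentiate the constant function
  `s ↦ ∫ ψ (x + s e_j) dx` under the integral sign, or: `P (dd j ψ)`: by `lat_mvt`-type arguments.
-/

namespace Pool.Agent.MP_bb37eb_nt.ZB

open Set Filter MeasureTheory

variable {N : ℕ}

theorem cube_volume : volume.real (Set.pi univ (fun _ : Fin N => Ico (0 : ℝ) 1)) = 1 := by
  rw [Measure.real, Real.volume_pi_Ico]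
  simp

/-- the unit cube with lower corner `k` -/
private def latc_S (k : Fin N → ℤ) : Set (E N) := {x | (fun i => ⌊x i⌋) = k}

private theorem latc_S_meas (k : Fin N → ℤ) : MeasurableSet (latc_S k) := by
  have h1 : Measurable (fun x : E N => fun i => ⌊x i⌋) :=
    measurable_pi_iff.2 fun i => (measurable_pi_apply i).floor
  exact h1 (measurableSet_singleton k)

private theorem latc_preimage (k : Fin N → ℤ) :
    (fun u : E N => cv k + u) ⁻¹' (latc_S k) = Set.pi univ (fun _ : Fin N => Ico (0 : ℝ) 1) := by
  ext u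
  simp only [mem_preimage, latc_S, mem_setOf_eq, Set.mem_pi, mem_univ, true_implies, funext_iff,
    Pi.add_apply, cv, Int.floor_intCast_add, add_eq_left, Int.floor_eq_zero_iff]

private theorem latc_tsum {g : E N → ℝ} (hg : Integrable g) :
    ∫ x, g x = ∑' k : Fin N → ℤ,
      ∫ u in Set.pi univ (fun _ : Fin N => Ico (0 : ℝ) 1), g (cv k + u) := by
  have h1 : (⋃ k : Fin N → ℤ, latc_S k) = (univ : Set (E N)) := by
    ext x
    simp [latc_S]
  have h2 : Pairwise (Function.onFun Disjoint (latc_S (N := N))) := by
    intro k l hkl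
    refine Set.disjoint_left.2 fun x hx hx' => hkl ?_
    exact hx.symm.trans hx'
  rw [← setIntegral_univ, ← h1, integral_iUnion latc_S_meas h2 hg.integrableOn]
  congr 1
  funext k
  rw [← latc_preimage k]
  exact ((measurePreserving_add_left volume (cv k)).setIntegral_preimage_emb
    (MeasurableEquiv.addLeft (cv k)).measurableEmbedding g (latc_S k)).symm

theorem lat_integral (ψ : E N → ℝ) (hψ : Continuous ψ) (hc : HasCompactSupport ψ) (h : ℝ)
    (hh : 0 < h) (t : E N) :
    ∫ u in Set.pi univ (fun _ : Fin N => Ico (0 : ℝ) 1), P ψ h (t + u) = (∫ x, ψ x) / h ^ N := by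
  obtain ⟨F, hF⟩ := lat_unif ψ hc h hh (‖t‖ + 1)
  have hcube : ∀ u ∈ Set.pi univ (fun _ : Fin N => Ico (0 : ℝ) 1), ‖t + u‖ ≤ ‖t‖ + 1 := by
    intro u hu
    refine (norm_add_le _ _).trans ?_
    have : ‖u‖ ≤ 1 := by
      rw [pi_norm_le_iff_of_nonneg zero_le_one]
      intro i
      have h1 := hu i (mem_univ i)
      rw [Real.norm_eq_abs, abs_of_nonneg h1.1]
      exact h1.2.le
    linarith
  have hmeas : MeasurableSet (Set.pi univ (fun _ : Fin N => Ico (0 : ℝ) 1)) :=
    MeasurableSet.univ_pi fun _ => measurableSet_Ico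
  have hi0 : Integrable (fun x => ψ x) := hψ.integrable_of_hasCompactSupport hc
  have hi1 : Integrable (fun x => ψ (h • x)) := hi0.comp_smul hh.ne'
  have hi2 : Integrable (fun x => ψ (h • (x + t))) := hi1.comp_add_right t
  have e1 := latc_tsum hi2
  have e2 : ∫ x, ψ (h • (x + t)) = (∫ x, ψ x) / h ^ N := by
    rw [integral_add_right_eq_self (fun x => ψ (h • x)) t, Measure.integral_comp_smul,
      Module.finrank_fin_fun, abs_of_pos (by positivity), smul_eq_mul]
    field_simp
  rw [← e2, e1]
  have e3 : ∀ k : Fin N → ℤ, k ∉ F → ∫ u in Set.pi univ (fun _ : Fin N => Ico (0 : ℝ) 1),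
      ψ (h • (cv k + u + t)) = 0 := by
    intro k hk
    refine setIntegral_eq_zero_of_forall_eq_zero fun u hu => ?_
    have := hF (t + u) (hcube u hu) k hk
    rw [← this]
    congr 2
    abel
  rw [tsum_eq_sum (s := F) (fun k hk => e3 k hk), ← integral_finsetSum]
  · refine setIntegral_congr_fun hmeas fun u hu => ?_
    simp only [P]
    rw [tsum_eq_sum (s := F) (fun k hk => hF (t + u) (hcube u hu) k hk)]
    refine Finset.sum_congr rfl fun k _ => ?_
    congr 2
    abel
  · intro k _
    exact (hi2.comp_add_left (cv k)).integrableOn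

theorem int_dd (j : Fin N) (ψ : E N → ℝ) (hψ : ContDiff ℝ (⊤ : ℕ∞) ψ)
    (hc : HasCompactSupport ψ) : ∫ x, dd j ψ x = 0 := by
  have h1 := integral_mul_fderiv_eq_neg_fderiv_mul_of_integrable (μ := (volume : Measure (E N)))
    (f := fun _ : E N => (1 : ℝ)) (g := ψ) (v := Pi.single j 1) ?_ ?_ ?_ ?_ ?_
  · simpa [dd] using h1
  · simp
  · simp only [one_mul]
    exact (dd_smooth j ψ hψ).continuous.integrable_of_hasCompactSupport (dd_compact j ψ hc)
  · simp only [one_mul]
    exact hψ.continuous.integrable_of_hasCompactSupport hc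
  · intro x _
    exact differentiableAt_const _
  · intro x _
    exact (hψ.differentiable (by simp)).differentiableAt

end Pool.Agent.MP_bb37eb_nt.ZB
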