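import Pool.Agent.Lib.MP_bb37eb_nt.ZB.LatC

/-! The main estimate for lattice sums.

PROOF. Induction on `M` for all `ψ` simultaneously. `M = 0`: `lat_bound`, and
`|∫ ψ| / h^N ≤ C / h^N`. Step `M → M + 1`: apply the hypothesis to all partial derivatives
`dd j ψ` (`dd_smooth`, `dd_compact`); since `∫ dd j ψ = 0` (`int_dd`) it says
`|P (dd j ψ) h r| ≤ C j * h^M / h^N` for all `r`. By `lat_mvt`,
`|P ψ h (t + u) - P ψ h t| ≤ h * ∑ j, C j * h^M / h^N = (∑ C j) * h^(M+1) / h^N` for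
`‖u‖ ≤ 1`, in particular for `u` in the unit cube `[0,1)^N`. Integrate over the cube, which has
volume `1` (`cube_volume`): `∫ P ψ h (t + u) du = (∫ ψ) / h^N` (`lat_integral`) and
`∫ P ψ h t du = P ψ h t`, so
`|(∫ ψ) / h^N - P ψ h t| = |∫ (P ψ h (t + u) - P ψ h t) du| ≤ (∑ C j) * h^(M+1) / h^N`
(`norm_setIntegral_le_of_norm_le_const`; integrability from `lat_cont`). -/

namespace Pool.Agent.MP_bb37eb_nt.ZB

open Set Filter MeasureTheory

variable {N : ℕ}

theorem lat_main (M : ℕ) : ∀ ψ : E N → ℝ, ContDiff ℝ (⊤ : ℕ∞) ψ → HasCompactSupport ψ →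
    ∃ C : ℝ, 0 ≤ C ∧ ∀ h : ℝ, 0 < h → h ≤ 1 → ∀ t : E N,
      |P ψ h t - (∫ x, ψ x) / h ^ N| ≤ C * h ^ M / h ^ N := by
  induction M with
  | zero =>
    intro ψ hψ hc
    obtain ⟨C, hC0, hC⟩ := lat_bound ψ hψ.continuous hc
    refine ⟨C + |∫ x, ψ x|, by positivity, fun h hh h1 t => ?_⟩
    have h2 := hC h hh h1 t
    have hp : 0 < h ^ N := pow_pos hh N
    have h3 : |(∫ x, ψ x) / h ^ N| = |∫ x, ψ x| / h ^ N := by
      rw [abs_div, abs_of_pos hp]
    calc |P ψ h t - (∫ x, ψ x) / h ^ N| ≤ |P ψ h t| + |(∫ x, ψ x) / h ^ N| := abs_sub _ _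
      _ ≤ C / h ^ N + |∫ x, ψ x| / h ^ N := by rw [h3]; exact add_le_add h2 le_rfl
      _ = (C + |∫ x, ψ x|) * h ^ 0 / h ^ N := by rw [pow_zero, _root_.mul_one, add_div]
  | succ M ih =>
    intro ψ hψ hc
    choose C hC0 hC using fun j : Fin N => ih (dd j ψ) (dd_smooth j ψ hψ) (dd_compact j ψ hc)
    refine ⟨∑ j, C j, Finset.sum_nonneg fun j _ => hC0 j, fun h hh h1 t => ?_⟩
    have hP : ∀ j r, |P (dd j ψ) h r| ≤ C j * h ^ M / h ^ N := by
      intro j r
      have h2 := hC j h hh h1 r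
      rwa [int_dd j ψ hψ hc, zero_div, sub_zero] at h2
    have hB : h * ∑ j, C j * h ^ M / h ^ N = (∑ j, C j) * h ^ (M + 1) / h ^ N := by
      rw [← Finset.sum_div, ← Finset.sum_mul]
      ring
    have hm : ∀ u ∈ Set.pi univ (fun _ : Fin N => Ico (0 : ℝ) 1),
        ‖P ψ h (t + u) - P ψ h t‖ ≤ (∑ j, C j) * h ^ (M + 1) / h ^ N := by
      intro u hu
      rw [← hB, Real.norm_eq_abs]
      refine lat_mvt ψ hψ hc h hh _ hP t (t + u) ?_
      rw [add_sub_cancel_left, pi_norm_le_iff_of_nonneg zero_le_one]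
      intro i
      have h3 := hu i (mem_univ i)
      rw [Real.norm_eq_abs, abs_of_nonneg h3.1]
      exact h3.2.le
    have hK : IsCompact (Set.pi univ (fun _ : Fin N => Icc (0 : ℝ) 1)) :=
      isCompact_univ_pi fun _ => isCompact_Icc
    have hsub : Set.pi univ (fun _ : Fin N => Ico (0 : ℝ) 1) ⊆
        Set.pi univ (fun _ : Fin N => Icc (0 : ℝ) 1) :=
      Set.pi_mono fun _ _ => Ico_subset_Icc_self
    have hcont : Continuous (fun u : E N => P ψ h (t + u)) :=
      (lat_cont ψ hψ.continuous hc h hh).comp (continuous_const.add continuous_id)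
    have hi : IntegrableOn (fun u : E N => P ψ h (t + u))
        (Set.pi univ (fun _ : Fin N => Ico (0 : ℝ) 1)) :=
      (hcont.continuousOn.integrableOn_compact hK).mono_set hsub
    have hfin : volume (Set.pi univ (fun _ : Fin N => Ico (0 : ℝ) 1)) < ⊤ :=
      (measure_mono hsub).trans_lt hK.measure_lt_top
    have hi2 : IntegrableOn (fun _ : E N => P ψ h t)
        (Set.pi univ (fun _ : Fin N => Ico (0 : ℝ) 1)) :=
      integrableOn_const hfin.ne
    have h4 := norm_setIntegral_le_of_norm_le_const (μ := volume) hfin hm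
    rw [integral_sub hi hi2, lat_integral ψ hψ.continuous hc h hh t, setIntegral_const,
      cube_volume, one_smul, _root_.mul_one, Real.norm_eq_abs, abs_sub_comm] at h4
    exact h4

end Pool.Agent.MP_bb37eb_nt.ZB
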