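import Pool.Agent.Lib.MP_bb37eb_nt.ZB.Core

/-! Elementary properties of `nu`.

PROOFS.
* `nu_mul`: by associativity `O.R (O.mul x y) = (O.R y).comp (O.R x)` (v(xy) = (vx)y), then
  `LinearMap.det_comp`, `abs_mul`, `mul_comm`.
* `nu_smul`: `O.R (t • x) = t • O.R x`, `LinearMap.det_smul`, `Module.finrank_fin_fun`.
* `nu_one`: `O.R O.one = LinearMap.id`.
* `nu_zero`: `nu_smul` with `t = 0`, `O.pos`.
* `nu_cont`: `x ↦ LinearMap.det (O.R x)` is continuous: write it as the determinant of the matrix
  `LinearMap.toMatrix' (O.R x)` (`LinearMap.det_toMatrix'`), whose entries are linear functions of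
  `x` (hence continuous, `LinearMap.continuous_of_finiteDimensional`), `Continuous.matrix_det`.
* `nu_contDiff`: the determinant is the polynomial `∑ σ, sign σ * ∏ i, entry` (`Matrix.det_apply`),
  so `ContDiff`.
* `nu_le`: `nu` is continuous, hence bounded by some `B` on the closed unit ball of `E N`
  (compact); for `x ≠ 0` write `x = ‖x‖ • (‖x‖⁻¹ • x)` and use `nu_smul`.
-/

namespace Pool.Agent.MP_bb37eb_nt.ZB

open Set Filter MeasureTheory

variable {N : ℕ} (O : DivOrder N)

theorem nu_nonneg (x : E N) : 0 ≤ O.nu x := abs_nonneg _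

theorem R_mul (x y : E N) : O.R (O.mul x y) = (O.R y).comp (O.R x) := by
  ext v
  simp only [DivOrder.R_apply, LinearMap.comp_apply, O.assoc]

theorem nu_mul (x y : E N) : O.nu (O.mul x y) = O.nu x * O.nu y := by
  unfold DivOrder.nu
  rw [R_mul, LinearMap.det_comp, abs_mul, mul_comm]

theorem nu_smul (t : ℝ) (x : E N) : O.nu (t • x) = |t| ^ N * O.nu x := by
  unfold DivOrder.nu
  have h : O.R (t • x) = t • O.R x := by
    unfold DivOrder.R
    rw [map_smul]
  rw [h, LinearMap.det_smul, abs_mul, abs_pow, Module.finrank_fin_fun]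

theorem nu_one : O.nu O.one = 1 := by
  unfold DivOrder.nu
  have h : O.R O.one = LinearMap.id := by
    apply LinearMap.ext
    intro v
    rw [DivOrder.R_apply, O.mul_one, LinearMap.id_apply]
  rw [h, LinearMap.det_id, abs_one]

theorem nu_zero : O.nu 0 = 0 := by
  have h := nu_smul O 0 0
  rw [smul_zero, abs_zero, zero_pow O.pos.ne', zero_mul] at h
  exact h

theorem one_ne : O.one ≠ 0 := by
  intro h
  have h1 := nu_one O
  rw [h, nu_zero] at h1
  exact zero_ne_one h1

theorem nua_det_eq (x : E N) : LinearMap.det (O.R x) = (LinearMap.toMatrix' (O.R x)).det :=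
  (LinearMap.det_toMatrix' (O.R x)).symm

/-- the entries of the matrix of `v ↦ v x` as linear forms in `x` -/
noncomputable def nua_entry (i j : Fin N) : E N →ₗ[ℝ] ℝ :=
  (LinearMap.proj i).comp (O.mul (Pi.single j 1))

theorem nua_entry_apply (i j : Fin N) (x : E N) :
    LinearMap.toMatrix' (O.R x) i j = nua_entry O i j x := by
  rw [LinearMap.toMatrix'_apply]
  simp only [nua_entry, LinearMap.comp_apply, LinearMap.proj_apply, DivOrder.R_apply]

theorem det_contDiff : ContDiff ℝ (⊤ : ℕ∞) (fun x : E N => LinearMap.det (O.R x)) := by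
  have h : (fun x : E N => LinearMap.det (O.R x)) = fun x : E N =>
      ∑ σ : Equiv.Perm (Fin N), ((Equiv.Perm.sign σ : ℤ) : ℝ) *
        ∏ i, nua_entry O (σ i) i x := by
    funext x
    rw [nua_det_eq, Matrix.det_apply']
    refine Finset.sum_congr rfl fun σ _ => ?_
    congr 1
  rw [h]
  refine ContDiff.sum fun σ _ => ?_
  refine contDiff_const.mul ?_
  refine contDiff_prod fun i _ => ?_
  exact (LinearMap.toContinuousLinearMap (nua_entry O (σ i) i)).contDiff

theorem nu_cont : Continuous O.nu := by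
  have h : Continuous (fun x : E N => LinearMap.det (O.R x)) := (det_contDiff O).continuous
  exact h.abs

theorem nu_le : ∃ B : ℝ, 1 ≤ B ∧ ∀ x : E N, O.nu x ≤ B * ‖x‖ ^ N := by
  obtain ⟨B, hB⟩ := (isCompact_closedBall (0 : E N) 1).bddAbove_image (nu_cont O).continuousOn
  refine ⟨max B 1, le_max_right _ _, fun x => ?_⟩
  by_cases hx : x = 0
  · rw [hx, nu_zero]
    positivity
  · have hn : 0 < ‖x‖ := norm_pos_iff.mpr hx
    have h1 : x = ‖x‖ • (‖x‖⁻¹ • x) := by
      rw [smul_smul, mul_inv_cancel₀ hn.ne', one_smul]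
    have h2 : O.nu (‖x‖⁻¹ • x) ≤ B := by
      apply hB
      refine ⟨_, ?_, rfl⟩
      rw [mem_closedBall_zero_iff, norm_smul, norm_inv, norm_norm, inv_mul_cancel₀ hn.ne']
    have h3 : O.nu x = ‖x‖ ^ N * O.nu (‖x‖⁻¹ • x) := by
      conv_lhs => rw [h1]
      rw [nu_smul, abs_of_nonneg hn.le]
    rw [h3, mul_comm]
    exact mul_le_mul_of_nonneg_right (h2.trans (le_max_left _ _)) (by positivity)

end Pool.Agent.MP_bb37eb_nt.ZB
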