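import Pool.Agent.Lib.MP_bb37eb_nt.ZB.GamB

/-! The average of a bump function over `Gam I`.

Let `φ` be smooth with compact support contained in the open set `{nu ≠ 0}`, and
`Phi φ x = ∑' u : Gam I, φ (u x)`.

PROOFS.
* `phi_locfin`: let `nu x₀ ≠ 0`. Choose a compact neighbourhood `W` of `x₀` contained in the open set
  `{nu ≠ 0}` (`nu_cont`, local compactness). By `finite_meet` with `K = W`, `K' = tsupport φ` and the
  `q` of `gam_rat`, only finitely many `u ∈ Gam I` satisfy `u x ∈ tsupport φ` for some `x ∈ W`.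
* `phi_smooth`: near `x₀` the function `Phi φ` is a finite sum of functions `x ↦ φ (u x)`, which are
  smooth (`x ↦ u x` is linear: `O.mul u`, `LinearMap.toContinuousLinearMap`, `contDiff`), use
  `ContDiffAt.congr_of_eventuallyEq` and `ContDiff.sum`.
* `phi_inv`: `Phi φ (u₀ x) = Phi φ x` for `u₀ ∈ Gam I`: reindex by the bijection `u ↦ u u₀` of
  `Gam I` (`gam_mul`, `gam_inv`, associativity; `Equiv.tsum_eq`).
* `phi_pos`: if `φ ≥ 0` and `φ (u x) > 0` for one `u ∈ Gam I` then `Phi φ x > 0` (finite sum of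
  nonnegative terms; `phi_locfin` at `x₀ = x` gives the finiteness).
* `phi_sum`: for any function `a : E N → ℝ` with `a (u x) = a x` for `u ∈ Gam I` (`nu x ≠ 0`)
  one has `∑' u, a (u x) * φ (u x) / Phi φ (u x) = a x` if `Phi φ x ≠ 0`
  (`phi_inv`, `tsum_mul_left`, `tsum_div_const`).
-/

namespace Pool.Agent.MP_bb37eb_nt.ZB

open Set Filter MeasureTheory Topology

variable {N : ℕ} (O : DivOrder N)

/-- sum over the group -/
noncomputable def Phi (I : AddSubgroup (E N)) (φ : E N → ℝ) (x : E N) : ℝ :=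
  ∑' u : O.Gam I, φ (O.mul (u : E N) x)

theorem phi_locfin (I : AddSubgroup (E N)) (hI : O.LI I) (φ : E N → ℝ)
    (hc : HasCompactSupport φ) (x₀ : E N) (hx : O.nu x₀ ≠ 0) :
    ∃ W ∈ 𝓝 x₀, ∃ F : Finset (O.Gam I), ∀ x ∈ W, ∀ u : O.Gam I, u ∉ F →
      φ (O.mul (u : E N) x) = 0 := by
  classical
  have hopen : IsOpen {x : E N | O.nu x ≠ 0} := isOpen_ne_fun (nu_cont O) continuous_const
  obtain ⟨W, hW, hWx, hWc⟩ := exists_compact_subset hopen hx
  obtain ⟨q, hq, hqG⟩ := gam_rat O I hI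
  have hfin := finite_meet O q hq W (tsupport φ) hW hc (fun k hk => hWc hk)
  have hfin2 : {u : O.Gam I | ∃ k ∈ W, O.mul (u : E N) k ∈ tsupport φ}.Finite := by
    refine Set.Finite.of_finite_image (f := fun u : O.Gam I => (u : E N)) (hfin.subset ?_)
      (Subtype.val_injective.injOn)
    rintro _ ⟨u, hu, rfl⟩
    exact ⟨hqG _ u.2, hu⟩
  refine ⟨W, mem_of_superset (isOpen_interior.mem_nhds hWx) interior_subset, hfin2.toFinset,
    fun x hxW u hu => ?_⟩
  by_contra hne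
  apply hu
  rw [Set.Finite.mem_toFinset]
  exact ⟨x, hxW, subset_tsupport φ hne⟩

/-- near an invertible element `Phi` is a finite sum -/
theorem phi_eventually (I : AddSubgroup (E N)) (hI : O.LI I) (φ : E N → ℝ)
    (hc : HasCompactSupport φ) (x₀ : E N) (hx : O.nu x₀ ≠ 0) :
    ∃ W ∈ 𝓝 x₀, ∃ F : Finset (O.Gam I), ∀ x ∈ W,
      Phi O I φ x = ∑ u ∈ F, φ (O.mul (u : E N) x) := by
  obtain ⟨W, hW, F, hF⟩ := phi_locfin O I hI φ hc x₀ hx
  exact ⟨W, hW, F, fun x hxW => tsum_eq_sum fun u hu => hF x hxW u hu⟩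

theorem phi_smooth (I : AddSubgroup (E N)) (hI : O.LI I) (φ : E N → ℝ)
    (hφ : ContDiff ℝ (⊤ : ℕ∞) φ) (hc : HasCompactSupport φ) (x₀ : E N) (hx : O.nu x₀ ≠ 0) :
    ContDiffAt ℝ (⊤ : ℕ∞) (Phi O I φ) x₀ := by
  obtain ⟨W, hW, F, hF⟩ := phi_eventually O I hI φ hc x₀ hx
  have h1 : ContDiff ℝ (⊤ : ℕ∞) (fun x => ∑ u ∈ F, φ (O.mul (u : E N) x)) := by
    refine ContDiff.sum fun u _ => hφ.comp ?_
    exact (LinearMap.toContinuousLinearMap (O.mul (u : E N))).contDiff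
  exact h1.contDiffAt.congr_of_eventuallyEq (by
    filter_upwards [hW] with x hx using hF x hx)

theorem phi_inv (I : AddSubgroup (E N)) (hI : O.LI I) (φ : E N → ℝ) (u : E N)
    (hu : u ∈ O.Gam I) (x : E N) : Phi O I φ (O.mul u x) = Phi O I φ x := by
  obtain ⟨v, hv, h1, h2⟩ := gam_inv O I hI u hu
  let e : O.Gam I ≃ O.Gam I :=
    { toFun := fun w => ⟨O.mul (w : E N) u, gam_mul O I _ _ w.2 hu⟩
      invFun := fun w => ⟨O.mul (w : E N) v, gam_mul O I _ _ w.2 hv⟩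
      left_inv := fun w => Subtype.ext (by
        show O.mul (O.mul (w : E N) u) v = w
        rw [O.assoc, h1, O.mul_one])
      right_inv := fun w => Subtype.ext (by
        show O.mul (O.mul (w : E N) v) u = w
        rw [O.assoc, h2, O.mul_one]) }
  unfold Phi
  rw [← e.tsum_eq (fun w : O.Gam I => φ (O.mul (w : E N) x))]
  refine tsum_congr fun w => ?_
  show φ (O.mul (w : E N) (O.mul u x)) = φ (O.mul (O.mul (w : E N) u) x)
  rw [O.assoc]

theorem phi_pos (I : AddSubgroup (E N)) (hI : O.LI I) (φ : E N → ℝ)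
    (hc : HasCompactSupport φ) (h0 : ∀ x, 0 ≤ φ x) (x : E N) (hx : O.nu x ≠ 0)
    (u : E N) (hu : u ∈ O.Gam I) (hpos : 0 < φ (O.mul u x)) : 0 < Phi O I φ x := by
  obtain ⟨W, hW, F, hF⟩ := phi_locfin O I hI φ hc x hx
  have hxW : x ∈ W := mem_of_mem_nhds hW
  have h1 : Phi O I φ x = ∑ u ∈ F, φ (O.mul (u : E N) x) :=
    tsum_eq_sum fun u hu => hF x hxW u hu
  rw [h1]
  have h2 : (⟨u, hu⟩ : O.Gam I) ∈ F := by
    by_contra h
    have := hF x hxW ⟨u, hu⟩ h
    simp only at this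
    linarith
  exact Finset.sum_pos' (fun w _ => h0 _) ⟨⟨u, hu⟩, h2, hpos⟩

end Pool.Agent.MP_bb37eb_nt.ZB
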