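import Pool.Agent.Lib.MP_bb37eb_nt.ZB.Wt
import Pool.Agent.Lib.MP_bb37eb_nt.ZB.Cls
import Pool.Agent.Lib.MP_bb37eb_nt.ZB.ClsSum

/-! Asymptotics of the smooth sum over all left ideals.

PROOFS.
* `class_asymp`: take `ψ` from `exists_weight`, use `class_sum` and `lat_sub` for `F = O.L I`
  (`L_ge`, `L_le`).
* `total_asymp`: let `S` be as in `exists_reps`. For `I ∈ S` let
  `g_I t = g (t * (idx I)^(1/N))`, again smooth with compact support contained in `(0, ∞)`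
  (`idx I > 0`). For `J` in the class of `I`:
  `g_I (((idx J) / idx I)^(1/N) / Y) = g ((idx J)^(1/N) / Y)` (`Real.div_rpow`). So
  `∑' J in the class of I, g ((idx J)^(1/N) / Y) = c_I Y^N + O(Y^N / Y^M)` by `class_asymp`. The left
  ideals of finite index are the disjoint union of the classes of the `I ∈ S`, and for each `Y` only
  finitely many `J` contribute (`class_sum`), so the total sum is the sum over `I ∈ S` of the class
  sums (`Summable.tsum_sigma`, or `tsum` over a finite support as a `Finset` sum, `Finset.sum_fiberwise`).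
  `c = ∑ c_I`, `C = ∑ C_I`.
* `total_finite`: finiteness of the set of the contributing `J`, needed above.
-/

namespace Pool.Agent.MP_bb37eb_nt.ZB

open Set Filter MeasureTheory

variable {N : ℕ} (O : DivOrder N)

theorem class_asymp (I : AddSubgroup (E N)) (hI : O.LI I) (g : ℝ → ℝ)
    (hg : ContDiff ℝ (⊤ : ℕ∞) g) (hgc : HasCompactSupport g) (hg0 : tsupport g ⊆ Ioi 0) (M : ℕ) :
    (∃ c C : ℝ, ∀ Y : ℝ, 1 ≤ Y →
      |∑' J : {J : AddSubgroup (E N) // O.LI J ∧ O.Rel I J},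
          g (((idx J.1 : ℝ) / idx I) ^ ((1 : ℝ) / N) / Y) - c * Y ^ N| ≤ C * Y ^ N / Y ^ M) ∧
    ∀ Y : ℝ, 0 < Y → {J : AddSubgroup (E N) | (O.LI J ∧ O.Rel I J) ∧
        g (((idx J : ℝ) / idx I) ^ ((1 : ℝ) / N) / Y) ≠ 0}.Finite := by
  obtain ⟨ψ, hψs, hψc, hψ0, hψ⟩ := exists_weight O I hI g hg hgc hg0
  obtain ⟨q, hq, hL⟩ := L_le O I hI
  constructor
  · obtain ⟨c, C, h⟩ := lat_sub ψ hψs hψc (O.L I) (L_ge O I hI) q hq hL M
    refine ⟨c, C, fun Y hY => ?_⟩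
    rw [← (class_sum O I hI ψ g hψc hψ0 hψ Y (by linarith)).1]
    exact h Y hY
  · intro Y hY
    exact (class_sum O I hI ψ g hψc hψ0 hψ Y hY).2

/-- the rescaled function -/
private noncomputable def tot_g (g : ℝ → ℝ) (r : ℝ) (t : ℝ) : ℝ := g (r * t)

private theorem tot_g_smooth {g : ℝ → ℝ} (hg : ContDiff ℝ (⊤ : ℕ∞) g) (r : ℝ) :
    ContDiff ℝ (⊤ : ℕ∞) (tot_g g r) :=
  hg.comp (contDiff_const.mul contDiff_id)

private theorem tot_g_compact {g : ℝ → ℝ} (hgc : HasCompactSupport g) {r : ℝ} (hr : 0 < r) :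
    HasCompactSupport (tot_g g r) :=
  hgc.comp_homeomorph (Homeomorph.mulLeft₀ r hr.ne')

private theorem tot_g_pos {g : ℝ → ℝ} (hg0 : tsupport g ⊆ Ioi 0) {r : ℝ} (hr : 0 < r) :
    tsupport (tot_g g r) ⊆ Ioi 0 := by
  have h1 : tsupport (tot_g g r) ⊆ (fun t => r * t) ⁻¹' tsupport g :=
    tsupport_comp_subset_preimage g (continuous_const.mul continuous_id)
  intro t ht
  have h2 : 0 < r * t := hg0 (h1 ht)
  exact (mul_pos_iff_of_pos_left hr).1 h2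

private theorem tot_eq (I J : AddSubgroup (E N)) (hI : O.LI I) (g : ℝ → ℝ) (Y : ℝ) :
    tot_g g ((idx I : ℝ) ^ ((1 : ℝ) / N)) (((idx J : ℝ) / idx I) ^ ((1 : ℝ) / N) / Y) =
      g ((idx J : ℝ) ^ ((1 : ℝ) / N) / Y) := by
  have hI0 : (0 : ℝ) < idx I := by
    exact_mod_cast idx_li_pos O I hI
  have h1 : (0 : ℝ) < (idx I : ℝ) ^ ((1 : ℝ) / N) := Real.rpow_pos_of_pos hI0 _
  unfold tot_g
  rw [Real.div_rpow (Nat.cast_nonneg _) hI0.le]
  congr 1
  rw [← mul_div_assoc, mul_div_cancel₀ _ h1.ne']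

theorem total_finite (g : ℝ → ℝ)
    (hg : ContDiff ℝ (⊤ : ℕ∞) g) (hgc : HasCompactSupport g) (hg0 : tsupport g ⊆ Ioi 0)
    (Y : ℝ) (hY : 0 < Y) :
    {J : AddSubgroup (E N) | O.LI J ∧ g ((idx J : ℝ) ^ ((1 : ℝ) / N) / Y) ≠ 0}.Finite := by
  obtain ⟨S, hS, hrep⟩ := exists_reps O
  have h1 : {J : AddSubgroup (E N) | O.LI J ∧ g ((idx J : ℝ) ^ ((1 : ℝ) / N) / Y) ≠ 0} ⊆
      ⋃ I ∈ (S : Set (AddSubgroup (E N))), {J : AddSubgroup (E N) | (O.LI J ∧ O.Rel I J) ∧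
        tot_g g ((idx I : ℝ) ^ ((1 : ℝ) / N))
          (((idx J : ℝ) / idx I) ^ ((1 : ℝ) / N) / Y) ≠ 0} := by
    rintro J ⟨hJ, hgJ⟩
    obtain ⟨I, ⟨hIS, hIJ⟩, -⟩ := hrep J hJ
    simp only [Set.mem_iUnion]
    refine ⟨I, hIS, ⟨hJ, hIJ⟩, ?_⟩
    rw [tot_eq O I J (hS I hIS)]
    exact hgJ
  refine Set.Finite.subset ?_ h1
  refine Set.Finite.biUnion S.finite_toSet fun I hI => ?_
  have hI' := hS I hI
  have hr : (0 : ℝ) < (idx I : ℝ) ^ ((1 : ℝ) / N) :=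
    Real.rpow_pos_of_pos (by exact_mod_cast idx_li_pos O I hI') _
  exact (class_asymp O I hI' _ (tot_g_smooth hg _) (tot_g_compact hgc hr)
    (tot_g_pos hg0 hr) 0).2 Y hY

theorem total_asymp (g : ℝ → ℝ)
    (hg : ContDiff ℝ (⊤ : ℕ∞) g) (hgc : HasCompactSupport g) (hg0 : tsupport g ⊆ Ioi 0) (M : ℕ) :
    ∃ c C : ℝ, ∀ Y : ℝ, 1 ≤ Y →
      |∑' J : {J : AddSubgroup (E N) // O.LI J},
          g ((idx J.1 : ℝ) ^ ((1 : ℝ) / N) / Y) - c * Y ^ N| ≤ C * Y ^ N / Y ^ M := by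
  classical
  obtain ⟨S, hS, hrep⟩ := exists_reps O
  have hcl : ∀ I : S, ∃ c C : ℝ, ∀ Y : ℝ, 1 ≤ Y →
      |∑' J : {J : AddSubgroup (E N) // O.LI J ∧ O.Rel I.1 J},
          g ((idx J.1 : ℝ) ^ ((1 : ℝ) / N) / Y) - c * Y ^ N| ≤ C * Y ^ N / Y ^ M := by
    intro I
    have hI' := hS I.1 I.2
    have hr : (0 : ℝ) < (idx I.1 : ℝ) ^ ((1 : ℝ) / N) :=
      Real.rpow_pos_of_pos (by exact_mod_cast idx_li_pos O I.1 hI') _
    obtain ⟨c, C, h⟩ := (class_asymp O I.1 hI' _ (tot_g_smooth hg _) (tot_g_compact hgc hr)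
      (tot_g_pos hg0 hr) M).1
    refine ⟨c, C, fun Y hY => ?_⟩
    have h1 := h Y hY
    have h2 : ∀ J : {J : AddSubgroup (E N) // O.LI J ∧ O.Rel I.1 J},
        tot_g g ((idx I.1 : ℝ) ^ ((1 : ℝ) / N))
          (((idx J.1 : ℝ) / idx I.1) ^ ((1 : ℝ) / N) / Y) =
        g ((idx J.1 : ℝ) ^ ((1 : ℝ) / N) / Y) := fun J => tot_eq O I.1 J.1 hI' g Y
    rwa [tsum_congr h2] at h1
  choose c C hC using hcl
  refine ⟨∑ I : S, c I, ∑ I : S, C I, fun Y hY => ?_⟩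
  have hY0 : 0 < Y := by linarith
  -- the decomposition into classes
  choose κ hκ hκu using hrep
  let κ' : {J : AddSubgroup (E N) // O.LI J} → S := fun J => ⟨κ J.1 J.2, (hκ J.1 J.2).1⟩
  have hfin := total_finite O g hg hgc hg0 Y hY0
  have hs : Summable (fun J : {J : AddSubgroup (E N) // O.LI J} =>
      g ((idx J.1 : ℝ) ^ ((1 : ℝ) / N) / Y)) := by
    apply summable_of_finite_support
    refine Set.Finite.of_finite_image
      (f := fun J : {J : AddSubgroup (E N) // O.LI J} => J.1) (hfin.subset ?_)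
      Subtype.val_injective.injOn
    rintro _ ⟨J, hJ, rfl⟩
    exact ⟨J.2, hJ⟩
  have h3 : ∑' J : {J : AddSubgroup (E N) // O.LI J}, g ((idx J.1 : ℝ) ^ ((1 : ℝ) / N) / Y) =
      ∑ I : S, ∑' J : {J : AddSubgroup (E N) // O.LI J ∧ O.Rel I.1 J},
        g ((idx J.1 : ℝ) ^ ((1 : ℝ) / N) / Y) := by
    rw [← (Equiv.sigmaFiberEquiv κ').tsum_eq]
    have hs' := (Equiv.sigmaFiberEquiv κ').summable_iff.2 hs
    refine (Summable.tsum_sigma hs').trans ?_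
    rw [tsum_fintype]
    refine Finset.sum_congr rfl fun I _ => ?_
    let e : {J : {J : AddSubgroup (E N) // O.LI J} // κ' J = I} ≃
        {J : AddSubgroup (E N) // O.LI J ∧ O.Rel I.1 J} :=
      { toFun := fun J => ⟨J.1.1, J.1.2, by
          have h4 : κ J.1.1 J.1.2 = I.1 := congrArg Subtype.val J.2
          have h5 := (hκ J.1.1 J.1.2).2
          rwa [h4] at h5⟩
        invFun := fun J => ⟨⟨J.1, J.2.1⟩, by
          apply Subtype.ext
          exact (hκu J.1 J.2.1 I.1 ⟨I.2, J.2.2⟩).symm⟩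
        left_inv := fun J => rfl
        right_inv := fun J => rfl }
    exact e.tsum_eq (fun J : {J : AddSubgroup (E N) // O.LI J ∧ O.Rel I.1 J} =>
      g ((idx J.1 : ℝ) ^ ((1 : ℝ) / N) / Y))
  rw [h3, Finset.sum_mul, ← Finset.sum_sub_distrib]
  refine (Finset.abs_sum_le_sum_abs _ _).trans ?_
  refine (Finset.sum_le_sum fun I _ => hC I Y hY).trans ?_
  rw [Finset.sum_mul, Finset.sum_div]

end Pool.Agent.MP_bb37eb_nt.ZB
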