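import Pool.Agent.Lib.MP_bb37eb_nt.ZB.Phi
import Pool.Agent.Lib.MP_bb37eb_nt.ZB.Coc
import Pool.Agent.Lib.MP_bb37eb_nt.ZB.Bump

/-! The weight function.

PROOF. `tsupport g` is compact and contained in `(0, ∞)`: choose `0 < α ≤ β` with
`tsupport g ⊆ Icc α β`. Let `K` be as in `cocompact` and `K2 = {s • k | s ∈ [α, β], k ∈ K}`, the image of
a compact set under a continuous map, so compact; `nu (s • k) = s^N ≠ 0`. Let `φ` be as in
`exists_bump` for `K2` and the open set `U = {nu ≠ 0}` (`nu_cont`). Define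
`ψ x = g ((nu x)^(1/N)) * φ x / Phi O I φ x`.
(a) If `nu x ≠ 0` and `s = (nu x)^(1/N) ∈ Icc α β` then `Phi O I φ x > 0`: `nu (s⁻¹ • x) = 1`
(`nu_smul`, `s^N = nu x`, `Real.rpow_natCast`, `O.pos`), so some `u ∈ Gam I` has
`u (s⁻¹ • x) ∈ K`, hence `u x = s • (u (s⁻¹ • x)) ∈ K2` and `φ (u x) > 0`; use `phi_pos`.
(b) smoothness at `x₀`. If `x₀ ∉ tsupport φ` (in particular if `nu x₀ = 0`) then `φ = 0` near `x₀`
(`notMem_tsupport_iff_eventuallyEq`) and `ψ = 0` near `x₀`. Let `nu x₀ ≠ 0`. If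
`(nu x₀)^(1/N) ∉ tsupport g` then `g ((nu x)^(1/N)) = 0` for `x` near `x₀` (continuity), so `ψ = 0`
near `x₀`. Otherwise `Phi O I φ x₀ ≠ 0` by (a) and `ψ` is smooth at `x₀`: `Phi` is smooth
(`phi_smooth`), and `x ↦ (nu x)^(1/N)` is smooth at `x₀`: `nu x = |det (O.R x)|`, `det_contDiff`, the
absolute value is smooth away from `0` (`contDiffAt_abs`), and `Real.contDiffAt_rpow_const_of_ne`.
(c) `ψ x ≠ 0` implies `φ x ≠ 0`, so `ψ` has compact support (`HasCompactSupport.mono`), and `ψ 0 = 0`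
since `nu 0 = 0` (`nu_zero`) and `tsupport φ ⊆ U`.
(d) let `nu x ≠ 0`. For `u ∈ Gam I`, `nu (u x) = nu x` (`nu_mul`, `gam_nu`) and
`Phi O I φ (u x) = Phi O I φ x` (`phi_inv`), so
`∑' u, ψ (u x) = g (s) / Phi O I φ x * ∑' u, φ (u x)`, with `s = (nu x)^(1/N)`. If
`Phi O I φ x ≠ 0` this is `g s`. If `Phi O I φ x = 0` the sum is `0` (division by zero) and `g s = 0` by (a).
The set of `u` with `ψ (u x) ≠ 0` is finite by `phi_locfin`. -/

namespace Pool.Agent.MP_bb37eb_nt.ZB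

open Set Filter MeasureTheory Topology

variable {N : ℕ} (O : DivOrder N)

theorem wt_interval (g : ℝ → ℝ) (hgc : HasCompactSupport g) (hg0 : tsupport g ⊆ Ioi 0) :
    ∃ α β : ℝ, 0 < α ∧ tsupport g ⊆ Icc α β := by
  rcases (tsupport g).eq_empty_or_nonempty with he | hne
  · exact ⟨1, 1, one_pos, by rw [he]; exact empty_subset _⟩
  · have hc : IsCompact (tsupport g) := hgc
    obtain ⟨α, hα⟩ := hc.exists_isLeast hne
    obtain ⟨β, hβ⟩ := hc.exists_isGreatest hne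
    exact ⟨α, β, hg0 hα.1, fun x hx => ⟨hα.2 hx, hβ.2 hx⟩⟩

theorem wt_root_pow (x : E N) (s : ℝ) (hs : s = (O.nu x) ^ ((1 : ℝ) / N)) :
    s ^ N = O.nu x := by
  have hN : (N : ℝ) ≠ 0 := Nat.cast_ne_zero.2 O.pos.ne'
  rw [hs, ← Real.rpow_natCast, ← Real.rpow_mul (nu_nonneg O x), one_div_mul_cancel hN,
    Real.rpow_one]

theorem wt_root_cont : Continuous (fun x : E N => (O.nu x) ^ ((1 : ℝ) / N)) :=
  (nu_cont O).rpow_const fun _ => Or.inr (by positivity)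

theorem wt_root_smooth (x₀ : E N) (hx : O.nu x₀ ≠ 0) :
    ContDiffAt ℝ (⊤ : ℕ∞) (fun x : E N => (O.nu x) ^ ((1 : ℝ) / N)) x₀ := by
  have hd : LinearMap.det (O.R x₀) ≠ 0 := by
    intro h0
    apply hx
    rw [DivOrder.nu, h0, abs_zero]
  have h1 : ContDiffAt ℝ (⊤ : ℕ∞) (fun x : E N => |LinearMap.det (O.R x)|) x₀ :=
    ContDiffAt.comp (g := fun y : ℝ => |y|) (f := fun x : E N => LinearMap.det (O.R x)) x₀
      (contDiffAt_abs hd) (det_contDiff O).contDiffAt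
  have h2 : ContDiffAt ℝ (⊤ : ℕ∞) O.nu x₀ := h1
  exact h2.rpow_const_of_ne hx

theorem exists_weight (I : AddSubgroup (E N)) (hI : O.LI I) (g : ℝ → ℝ)
    (hg : ContDiff ℝ (⊤ : ℕ∞) g) (hgc : HasCompactSupport g) (hg0 : tsupport g ⊆ Ioi 0) :
    ∃ ψ : E N → ℝ, ContDiff ℝ (⊤ : ℕ∞) ψ ∧ HasCompactSupport ψ ∧ ψ 0 = 0 ∧
      ∀ x, O.nu x ≠ 0 → {u : O.Gam I | ψ (O.mul (u : E N) x) ≠ 0}.Finite ∧
        ∑' u : O.Gam I, ψ (O.mul (u : E N) x) = g ((O.nu x) ^ ((1 : ℝ) / N)) := by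
  obtain ⟨α, β, hα, hαβ⟩ := wt_interval g hgc hg0
  obtain ⟨K, hK, hK1, hKc⟩ := cocompact O I hI
  set K2 : Set (E N) := (fun p : ℝ × E N => p.1 • p.2) '' (Icc α β ×ˢ K) with hK2
  have hK2c : IsCompact K2 := (isCompact_Icc.prod hK).image (by fun_prop)
  have hUo : IsOpen {x : E N | O.nu x ≠ 0} := isOpen_ne_fun (nu_cont O) continuous_const
  have hK2U : K2 ⊆ {x : E N | O.nu x ≠ 0} := by
    rintro _ ⟨⟨s, k⟩, ⟨hs, hk⟩, rfl⟩
    have hs0 : (0 : ℝ) < s := hα.trans_le hs.1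
    show O.nu (s • k) ≠ 0
    rw [nu_smul, hK1 k hk, mul_one]
    exact pow_ne_zero _ (abs_ne_zero.2 hs0.ne')
  obtain ⟨φ, hφ, hφc, hφU, hφ0, hφK⟩ := exists_bump K2 _ hK2c hUo hK2U
  -- positivity of the average
  have ha : ∀ x, O.nu x ≠ 0 → (O.nu x) ^ ((1 : ℝ) / N) ∈ Icc α β → 0 < Phi O I φ x := by
    intro x hx hs
    obtain ⟨s, hsdef⟩ : ∃ s, s = (O.nu x) ^ ((1 : ℝ) / N) := ⟨_, rfl⟩
    rw [← hsdef] at hs
    have hs0 : 0 < s := hα.trans_le hs.1
    have hsN : s ^ N = O.nu x := wt_root_pow O x s hsdef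
    have h1 : O.nu (s⁻¹ • x) = 1 := by
      rw [nu_smul, abs_of_pos (inv_pos.2 hs0), ← hsN, inv_pow]
      exact inv_mul_cancel₀ (pow_ne_zero _ hs0.ne')
    obtain ⟨u, hu, huK⟩ := hKc _ h1
    have h2 : O.mul u x ∈ K2 := by
      refine ⟨(s, O.mul u (s⁻¹ • x)), ⟨hs, huK⟩, ?_⟩
      show s • O.mul u (s⁻¹ • x) = O.mul u x
      rw [map_smul, smul_smul, mul_inv_cancel₀ hs0.ne', one_smul]
    exact phi_pos O I hI φ hφc hφ0 x hx u hu (hφK _ h2)
  set ψ : E N → ℝ := fun x => g ((O.nu x) ^ ((1 : ℝ) / N)) * φ x / Phi O I φ x with hψ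
  have hψ0 : ∀ x, φ x = 0 → ψ x = 0 := by
    intro x hx
    simp only [hψ, hx, mul_zero, zero_div]
  refine ⟨ψ, ?_, ?_, ?_, ?_⟩
  · -- smoothness
    rw [contDiff_iff_contDiffAt]
    intro x₀
    by_cases hx₀ : x₀ ∈ tsupport φ
    · have hnu : O.nu x₀ ≠ 0 := hφU hx₀
      by_cases hr : (O.nu x₀) ^ ((1 : ℝ) / N) ∈ tsupport g
      · have hP : Phi O I φ x₀ ≠ 0 := (ha x₀ hnu (hαβ hr)).ne'
        exact ((hg.contDiffAt.comp x₀ (wt_root_smooth O x₀ hnu)).mul hφ.contDiffAt).div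
          (phi_smooth O I hI φ hφ hφc x₀ hnu) hP
      · have hev : ∀ᶠ x in 𝓝 x₀, (O.nu x) ^ ((1 : ℝ) / N) ∈ (tsupport g)ᶜ :=
          (wt_root_cont O).continuousAt.eventually_mem
            ((isClosed_tsupport g).isOpen_compl.mem_nhds hr)
        have hev2 : ψ =ᶠ[𝓝 x₀] fun _ => (0 : ℝ) := by
          filter_upwards [hev] with x hx
          have : g ((O.nu x) ^ ((1 : ℝ) / N)) = 0 := image_eq_zero_of_notMem_tsupport hx
          simp only [hψ, this, zero_mul, zero_div]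
        exact contDiffAt_const.congr_of_eventuallyEq hev2
    · have hev : φ =ᶠ[𝓝 x₀] 0 := notMem_tsupport_iff_eventuallyEq.1 hx₀
      have hev2 : ψ =ᶠ[𝓝 x₀] fun _ => (0 : ℝ) := by
        filter_upwards [hev] with x hx
        exact hψ0 x hx
      exact contDiffAt_const.congr_of_eventuallyEq hev2
  · -- compact support
    refine hφc.mono fun x hx => ?_
    intro h0
    exact hx (hψ0 x h0)
  · -- value at zero
    apply hψ0
    apply image_eq_zero_of_notMem_tsupport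
    intro h0
    exact hφU h0 (nu_zero O)
  · intro x hx
    have hval : ∀ u : O.Gam I, ψ (O.mul (u : E N) x) =
        g ((O.nu x) ^ ((1 : ℝ) / N)) * φ (O.mul (u : E N) x) / Phi O I φ x := by
      intro u
      have h1 : O.nu (O.mul (u : E N) x) = O.nu x := by
        rw [nu_mul, gam_nu O I hI u u.2, one_mul]
      simp only [hψ]
      rw [h1, phi_inv O I hI φ u u.2 x]
    constructor
    · obtain ⟨W, hW, F, hF⟩ := phi_locfin O I hI φ hφc x hx
      refine F.finite_toSet.subset fun u hu => ?_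
      by_contra hne
      exact hu (hψ0 _ (hF x (mem_of_mem_nhds hW) u hne))
    · simp_rw [hval]
      rw [tsum_div_const, tsum_mul_left]
      show g ((O.nu x) ^ ((1 : ℝ) / N)) * Phi O I φ x / Phi O I φ x = _
      by_cases hP : Phi O I φ x = 0
      · rw [hP, mul_zero, zero_div]
        by_contra hne
        have h1 : (O.nu x) ^ ((1 : ℝ) / N) ∈ tsupport g := subset_tsupport g (Ne.symm hne)
        exact (ha x hx (hαβ h1)).ne' hP
      · rw [mul_div_assoc, div_self hP, mul_one]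

end Pool.Agent.MP_bb37eb_nt.ZB
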